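import Pool.Agent.Q37.FZ.Main

set_option autoImplicit false
set_option maxHeartbeats 1000000

/-! # The first zero exists; the structure of small losses -/

namespace Pool.Agent.Q37.FZ

open Finset Filter

/-- the recursion of the problem -/
def seqa (m : ℕ) : ℕ → ℤ
  | 0 => 4 * (m : ℤ) ^ 2
  | 1 => 4 * (m : ℤ) ^ 2
  | (n + 2) => |seqa m (n + 1) - ((Int.gcd (seqa m (n + 1))
      (((n + 2 : ℕ) : ℤ) * (((n + 2 : ℕ) : ℤ) + 2 * (m : ℤ)))) : ℤ)|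

theorem exists_first (m : ℕ) (hm : 1 ≤ m) : ∃ f, FirstZero m f := by
  classical
  have hrec : ∀ n : ℕ, 2 ≤ n →
      seqa m n = |seqa m (n - 1) - ((Int.gcd (seqa m (n - 1)) ((n : ℤ) * ((n : ℤ) + 2 * (m : ℤ)))) : ℤ)| := by
    intro n hn
    obtain ⟨k, rfl⟩ : ∃ k, n = k + 2 := ⟨n - 2, by omega⟩
    rw [seqa]
    rfl
  have hnn : ∀ k, 1 ≤ k → 0 ≤ seqa m k := by
    intro k hk
    rcases Nat.lt_or_ge k 2 with h | h
    · have : k = 1 := by omega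
      subst this
      show (0 : ℤ) ≤ 4 * (m : ℤ) ^ 2
      positivity
    · rw [hrec k h]; exact abs_nonneg _
  have hex : ∃ n, 1 ≤ n ∧ seqa m n = 0 := by
    by_contra hcon
    push Not at hcon
    have hle : ∀ k, 1 ≤ k → seqa m k ≤ 4 * (m : ℤ) ^ 2 - ((k : ℤ) - 1) := by
      intro k hk
      induction k, hk using Nat.le_induction with
      | base =>
        show (4 * (m : ℤ) ^ 2 : ℤ) ≤ _
        simp
      | succ k hk ih =>
        have h1 := hrec (k + 1) (by omega)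
        rw [Nat.add_sub_cancel] at h1
        have h2 : 0 < seqa m k := lt_of_le_of_ne (hnn k hk) (Ne.symm (hcon k hk))
        have h3 : (Int.gcd (seqa m k) (((k + 1 : ℕ) : ℤ) * (((k + 1 : ℕ) : ℤ) + 2 * (m : ℤ))) : ℤ) ≤ seqa m k :=
          Int.le_of_dvd h2 (Int.gcd_dvd_left _ _)
        have h4 : 0 < Int.gcd (seqa m k) (((k + 1 : ℕ) : ℤ) * (((k + 1 : ℕ) : ℤ) + 2 * (m : ℤ))) :=
          Int.gcd_pos_of_ne_zero_left _ h2.ne'
        rw [h1, abs_of_nonneg (sub_nonneg.2 h3)]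
        have h5 : (1 : ℤ) ≤ (Int.gcd (seqa m k)
            (((k + 1 : ℕ) : ℤ) * (((k + 1 : ℕ) : ℤ) + 2 * (m : ℤ))) : ℤ) := by exact_mod_cast h4
        have h6 : ((k + 1 : ℕ) : ℤ) - 1 = k := by push_cast; ring
        rw [h6]
        linarith
    have h1 := hle (4 * m ^ 2 + 1) (by omega)
    have h2 := hnn (4 * m ^ 2 + 1) (by omega)
    have h3 := hcon (4 * m ^ 2 + 1) (by omega)
    push_cast at h1
    apply h3
    linarith
  exact ⟨Nat.find hex, seqa m, rfl, hrec, Nat.find_spec hex, fun n hn => Nat.find_min' hex hn⟩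

/-- small losses depend on the residue class only -/
theorem same_class : ∃ m₀ : ℕ, ∀ D m m' f f' : ℕ, m₀ + D ≤ m → m₀ + D ≤ m' →
    m ≡ m' [MOD Nat.lcmUpto (D + 1)] → FirstZero m f → FirstZero m' f' →
    4 * m ^ 2 + 1 ≤ f + D → 4 * m' ^ 2 + 1 ≤ f' + D →
    4 * m ^ 2 + 1 - f = 4 * m' ^ 2 + 1 - f' ∧ (f + 1).Prime ∧ (f + 2 * m + 1).Prime := by
  obtain ⟨m₀, hm02, hm₀⟩ := prime_of_loss
  refine ⟨m₀ + 2, ?_⟩
  intro D m m' f f' hm hm' hmod h h' hl hl'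
  obtain ⟨L, hLD, hL2, hfL, hp1, hp2, hDf, -⟩ := good_elem (X := 0) hm₀ h hl (by
    rw [Nat.sqrt_zero]; omega)
  obtain ⟨L', hLD', hL2', hfL', hp1', hp2', hDf', -⟩ := good_elem (X := 0) hm₀ h' hl' (by
    rw [Nat.sqrt_zero]; omega)
  have hsame := same_loss (w := D + 1) (M := Nat.lcmUpto (D + 1))
    (fun q hq1 hq2 => Pool.Agent.Q55.GcdSmall.dvd_lcm hq1 hq2) (by omega) (by omega) h h' hmod
    (by omega) (by omega) hp1 hp2 hDf hp1' hp2' hDf'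
  refine ⟨by omega, hp1, hp2⟩

open Classical in
/-- almost all `m` -/
theorem almost_all (ε : ℝ) (hε : 0 < ε) (hε1 : ε ≤ 1) : ∃ X₀ : ℕ, ∀ X : ℕ, X₀ ≤ X →
    (((Icc 1 X).filter (fun m : ℕ => ¬ ∃ f : ℕ, FirstZero m f ∧
      Real.log X ^ (2 - ε) < 4 * (m : ℝ) ^ 2 + 1 - f)).card : ℝ) ≤ ε * X := by
  obtain ⟨X₀, h⟩ := typical ε hε hε1
  refine ⟨X₀, fun X hX => ?_⟩
  obtain ⟨D, hD⟩ : ∃ D : ℕ, D = ⌊Real.log X ^ (2 - ε)⌋₊ := ⟨_, rfl⟩
  have hl : 0 ≤ Real.log X := Real.log_natCast_nonneg _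
  refine le_trans ?_ (h X hX D (by rw [hD]; exact Nat.floor_le (by positivity)))
  rw [Nat.cast_le]
  apply Finset.card_le_card
  intro m hm
  rw [Finset.mem_filter, Finset.mem_Icc] at hm
  obtain ⟨h1, h2⟩ := hm
  obtain ⟨f, hf⟩ := exists_first m h1.1
  refine mem_LS.2 ⟨h1, f, hf, ?_⟩
  obtain ⟨-, -, -, -, -, -, hle⟩ := FirstZero.pack h1.1 hf
  have h5 : 4 * (m : ℝ) ^ 2 + 1 - f ≤ Real.log X ^ (2 - ε) := by
    by_contra hcon
    push Not at hcon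
    exact h2 ⟨f, hf, hcon⟩
  have h6 : 4 * m ^ 2 + 1 - f ≤ D := by
    rw [hD]
    apply Nat.le_floor
    rw [Nat.cast_sub hle]
    push_cast
    exact h5
  omega

end Pool.Agent.Q37.FZ
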