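import Pool.Agent.Q55.GcdWalk
import Pool.Agent.Results.MP_9227d9_nt.HalfDescent
import Pool.Agent.Y55.GCR.Tail

set_option autoImplicit false
set_option maxHeartbeats 1000000

/-! # The first zero of the gcd recursion with `n (n + 2m)` -/

namespace Pool.Agent.Q37.FZ

open Finset Filter Pool.Agent.H399R2 Pool.Agent.TH999.GCR Pool.Agent.Y55.GCR Pool.Agent.Q55.GcdWalk
open Pool.Agent.Results.MP_9227d9_nt

/-- the polynomial of the recursion -/
def VV (m : ℕ) (n : ℕ) : ℤ := (n : ℤ) * ((n : ℤ) + 2 * (m : ℤ))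

/-- `f` is the first zero of the recursion for `m` -/
def FirstZero (m f : ℕ) : Prop :=
  ∃ a : ℕ → ℤ, a 1 = 4 * (m : ℤ) ^ 2 ∧
    (∀ n : ℕ, 2 ≤ n →
      a n = |a (n - 1) - ((Int.gcd (a (n - 1)) ((n : ℤ) * ((n : ℤ) + 2 * (m : ℤ)))) : ℤ)|) ∧
    IsLeast {n : ℕ | 1 ≤ n ∧ a n = 0} f

/-- the recursion without absolute values -/
def mkb (x : ℤ) (V : ℕ → ℤ) : ℕ → ℤ
  | 0 => x
  | 1 => x
  | (n + 2) => mkb x V (n + 1) - ((Int.gcd (mkb x V (n + 1)) (V (n + 2)) : ℕ) : ℤ)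

lemma mkb_rec (x : ℤ) (V : ℕ → ℤ) : Rec (mkb x V) V := by
  intro n hn
  obtain ⟨k, rfl⟩ : ∃ k, n = k + 2 := ⟨n - 2, by omega⟩
  rw [mkb]
  rfl

lemma FirstZero.pos {m f : ℕ} (hm : 1 ≤ m) {a : ℕ → ℤ} (ha1 : a 1 = 4 * (m : ℤ) ^ 2)
    (ha : ∀ n : ℕ, 2 ≤ n →
      a n = |a (n - 1) - ((Int.gcd (a (n - 1)) ((n : ℤ) * ((n : ℤ) + 2 * (m : ℤ)))) : ℤ)|)
    (hf : IsLeast {n : ℕ | 1 ≤ n ∧ a n = 0} f) :
    (∀ k, 1 ≤ k → k < f → 0 < a k) ∧ 2 ≤ f := by
  have hm' : (1 : ℤ) ≤ m := by exact_mod_cast hm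
  constructor
  · intro k hk1 hk2
    have hne : a k ≠ 0 := by
      intro h
      have := hf.2 ⟨hk1, h⟩
      omega
    have hnn : 0 ≤ a k := by
      rcases Nat.lt_or_ge k 2 with h | h
      · have : k = 1 := by omega
        subst this
        rw [ha1]; positivity
      · rw [ha k h]; exact abs_nonneg _
    omega
  · by_contra h
    have h1 := hf.1.1
    have h2 := hf.1.2
    have : f = 1 := by omega
    subst this
    rw [ha1] at h2
    nlinarith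

lemma FirstZero.pack {m f : ℕ} (hm : 1 ≤ m) (h : FirstZero m f) : ∃ b : ℕ → ℤ,
    b 1 = 4 * (m : ℤ) ^ 2 ∧ Rec b (VV m) ∧ b f = 0 ∧ 2 ≤ f ∧ (∀ k, 1 ≤ k → k < f → 0 < b k) ∧
    f ≤ 4 * m ^ 2 + 1 := by
  obtain ⟨a, ha1, ha, hf⟩ := h
  obtain ⟨hpos, hf2⟩ := FirstZero.pos hm ha1 ha hf
  have hag : ∀ k, 1 ≤ k → k ≤ f → mkb (4 * (m : ℤ) ^ 2) (VV m) k = a k := by
    intro k hk
    induction k, hk using Nat.le_induction with
    | base => intro _; rw [ha1]; rfl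
    | succ k hk ih =>
      intro hkf
      have h1 := ih (by omega)
      have h2 := hpos k hk (by omega)
      have h3 := (mkb_rec (4 * (m : ℤ) ^ 2) (VV m)).step hk
      have h4 := ha (k + 1) (by omega)
      rw [Nat.add_sub_cancel] at h4
      have h5 : (Int.gcd (a k) (VV m (k + 1)) : ℤ) ≤ a k := Int.le_of_dvd h2 (Int.gcd_dvd_left _ _)
      have h6 : a (k + 1) = a k - (Int.gcd (a k) (VV m (k + 1)) : ℤ) := by
        rw [h4]
        exact abs_of_nonneg (sub_nonneg.2 h5)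
      rw [h3, h1, h6]
  refine ⟨mkb (4 * (m : ℤ) ^ 2) (VV m), rfl, mkb_rec _ _, ?_, hf2, ?_, ?_⟩
  · rw [hag f (by omega) le_rfl]; exact hf.1.2
  · intro k hk1 hk2
    rw [hag k hk1 hk2.le]; exact hpos k hk1 hk2
  · have hb := (mkb_rec (4 * (m : ℤ) ^ 2) (VV m)).desc (T := f) (by
      intro k hk1 hk2
      rw [hag k hk1 hk2.le]; exact hpos k hk1 hk2) (k := 1) le_rfl f (by omega) le_rfl
    have h1 : mkb (4 * (m : ℤ) ^ 2) (VV m) f = 0 := by
      rw [hag f (by omega) le_rfl]; exact hf.1.2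
    have h2 : mkb (4 * (m : ℤ) ^ 2) (VV m) 1 = 4 * (m : ℤ) ^ 2 := rfl
    rw [h1, h2] at hb
    have h3 : (f : ℤ) ≤ ((4 * m ^ 2 + 1 : ℕ) : ℤ) := by push_cast; push_cast at hb; linarith
    exact_mod_cast h3

/-- a small loss gives two primes -/
theorem prime_of_loss : ∃ m₀ : ℕ, 2 ≤ m₀ ∧ ∀ m f D : ℕ, m₀ ≤ m → FirstZero m f →
    4 * m ^ 2 + 1 ≤ f + D → 4 * D ≤ m ^ 2 → (f + 1).Prime ∧ (f + 2 * m + 1).Prime := by
  obtain ⟨δ, C, hδ, hδ4, hC, hmain⟩ := tail 1 2 (by norm_num)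
  have ht : Tendsto (fun m : ℕ => ((m : ℝ)) ^ (2 * δ)) atTop atTop :=
    (tendsto_rpow_atTop (by positivity)).comp tendsto_natCast_atTop_atTop
  obtain ⟨m₁, hm₁⟩ := eventually_atTop.1 (ht.eventually_ge_atTop (4 * C))
  refine ⟨max m₁ 2, le_max_right _ _, ?_⟩
  intro m f D hm hf hD hDm
  have hm2 : 2 ≤ m := (le_max_right _ _).trans hm
  have hmm := hm₁ m ((le_max_left _ _).trans hm)
  have hmr : (2 : ℝ) ≤ m := by exact_mod_cast hm2
  have hm0 : (0 : ℝ) < m := by linarith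
  have hCb : C * (4 * (m : ℝ) ^ 2) ^ (1 - δ) ≤ (m : ℝ) ^ 2 := by
    have e1 : (4 * (m : ℝ) ^ 2) ^ (1 - δ) ≤ 4 * (m : ℝ) ^ 2 * ((m : ℝ) ^ (2 * δ))⁻¹ := by
      rw [Real.mul_rpow (by norm_num) (by positivity)]
      have h1 : (4 : ℝ) ^ (1 - δ) ≤ 4 := by
        calc (4 : ℝ) ^ (1 - δ) ≤ (4 : ℝ) ^ (1 : ℝ) :=
              Real.rpow_le_rpow_of_exponent_le (by norm_num) (by linarith)
          _ = 4 := Real.rpow_one _
      have h2 : ((m : ℝ) ^ 2) ^ (1 - δ) = (m : ℝ) ^ 2 * ((m : ℝ) ^ (2 * δ))⁻¹ := by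
        rw [← Real.rpow_natCast, ← Real.rpow_mul hm0.le, ← Real.rpow_neg hm0.le, ← Real.rpow_add hm0]
        congr 1
        push_cast
        ring
      rw [h2, mul_assoc]
      exact mul_le_mul_of_nonneg_right h1 (by positivity)
    have hp : 0 < (m : ℝ) ^ (2 * δ) := by positivity
    calc C * (4 * (m : ℝ) ^ 2) ^ (1 - δ) ≤ C * (4 * (m : ℝ) ^ 2 * ((m : ℝ) ^ (2 * δ))⁻¹) :=
          mul_le_mul_of_nonneg_left e1 hC.le
      _ = (4 * C) * (m : ℝ) ^ 2 / (m : ℝ) ^ (2 * δ) := by field_simp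
      _ ≤ (m : ℝ) ^ 2 := by
          rw [div_le_iff₀ hp, mul_comm]
          exact mul_le_mul_of_nonneg_left hmm (by positivity)
  obtain ⟨b, -, -, -, -, -, hfle⟩ := FirstZero.pack (by omega) hf
  obtain ⟨a, ha1, ha, hfl⟩ := hf
  obtain ⟨hpos, hf2⟩ := FirstZero.pos (by omega) ha1 ha hfl
  have hseg : Seg (fun k => (a k).natAbs) (VV m) 1 f := by
    apply seg_of_zeros (V := VV m) (by rw [ha1]; positivity) ha le_rfl (by omega)
    intro k h1 h2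
    exact (hpos k h1 h2).ne'
  have hgood := HalfDescent.good m 0 f (fun k => (a k).natAbs) hseg
  obtain ⟨l, hsl, hle, htr, hrun, hl⟩ := hmain _ _ _ _ _ _ hgood (by
    show (a f).natAbs = 0
    rw [hfl.1.2]; rfl)
  have hdet := HalfDescent.detect m f l (fun k => (a k).natAbs) hle htr hrun
  have hx1 : (((a (0 + 1)).natAbs : ℕ) : ℝ) = 4 * (m : ℝ) ^ 2 := by
    have h1 : (((a (0 + 1)).natAbs : ℕ) : ℤ) = 4 * (m : ℤ) ^ 2 := by
      rw [Int.natAbs_of_nonneg]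
      · exact ha1
      · show 0 ≤ a 1
        rw [ha1]; positivity
    exact_mod_cast h1
  simp only [hx1] at hl
  have key : ∀ p : ℕ, p.Prime → p ∣ (f + 1) * (f + 2 * m + 1) → 2 * m ^ 2 ≤ p := by
    intro p hp hd
    have h1 := hdet p hp hd
    have h2 : (f : ℝ) - l ≤ p := by
      have h4 : (f : ℝ) ≤ ((l + p : ℕ) : ℝ) := by exact_mod_cast (by omega : f ≤ l + p)
      push_cast at h4
      linarith
    have h3 : (4 : ℝ) * m ^ 2 + 1 ≤ f + D := by exact_mod_cast hD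
    have h4 : (4 : ℝ) * D ≤ m ^ 2 := by exact_mod_cast hDm
    push_cast at hl
    have h5 : (2 : ℝ) * m ^ 2 ≤ p := by nlinarith
    exact_mod_cast h5
  have hbig : f + 2 * m + 1 < 2 * m ^ 2 * (2 * m ^ 2) := by
    have h1 : 2 * m ≤ m ^ 2 := by nlinarith
    have h2 : 4 ≤ m ^ 2 := by nlinarith
    nlinarith
  constructor
  · by_contra hnp
    have h1 := key _ (Nat.minFac_prime (by omega : f + 1 ≠ 1)) ((Nat.minFac_dvd _).mul_right _)
    have h2 := Nat.minFac_sq_le_self (by omega : 0 < f + 1) hnp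
    nlinarith
  · by_contra hnp
    have h1 := key _ (Nat.minFac_prime (by omega : f + 2 * m + 1 ≠ 1)) ((Nat.minFac_dvd _).mul_left _)
    have h2 := Nat.minFac_sq_le_self (by omega : 0 < f + 2 * m + 1) hnp
    nlinarith

/-- the loss of a small loss is determined modulo `M` -/
lemma same_loss_aux {m f m' f' M w : ℕ} (hM : ∀ q : ℕ, 1 ≤ q → q ≤ w → q ∣ M) (hm : 1 ≤ m)
    (hm' : 1 ≤ m') (h : FirstZero m f) (h' : FirstZero m' f') (hmod : m % M = m' % M) (hff : f ≤ f')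
    (hl : 4 * m ^ 2 + 1 < f + w) (hl' : 4 * m' ^ 2 + 1 < f' + w)
    (hp1 : (f + 1).Prime) (hp2 : (f + 2 * m + 1).Prime) (hw1 : w < f + 1) :
    4 * m ^ 2 + f' = 4 * m' ^ 2 + f := by
  obtain ⟨a, ha1, ha, hag, hg2, hpos, hgN⟩ := h.pack hm
  obtain ⟨a', ha1', ha', hag', hg2', hpos', hgN'⟩ := h'.pack hm'
  have hMd : (M : ℤ) ∣ (m : ℤ) - m' := (Nat.modEq_iff_dvd.1 (show m' ≡ m [MOD M] from hmod.symm))
  have hMΔ : (M : ℤ) ∣ 4 * (m : ℤ) ^ 2 - 4 * (m' : ℤ) ^ 2 := by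
    have e : 4 * (m : ℤ) ^ 2 - 4 * (m' : ℤ) ^ 2 = ((m : ℤ) - m') * (4 * (m + m')) := by ring
    rw [e]; exact Dvd.dvd.mul_right hMd _
  have hmono := ha'.desc hpos' (k := f) (by omega) f' hff le_rfl
  have hl1 : (4 : ℤ) * m ^ 2 + 1 < f + w := by exact_mod_cast hl
  have hl1' : (4 : ℤ) * m' ^ 2 + 1 < f' + w := by exact_mod_cast hl'
  have hagree := agree (T := f) (w := w) (Δ := 4 * (m : ℤ) ^ 2 - 4 * (m' : ℤ) ^ 2) hM ha ha'
    (by rw [ha1, ha1']) hMΔ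
    (by
      intro n
      have e : VV m n - VV m' n = ((m : ℤ) - m') * (2 * n) := by unfold VV; ring
      rw [e]; exact Dvd.dvd.mul_right hMd _)
    hpos (fun k h1 h2 => hpos' k h1 (by omega)) (by rw [ha1, hag]; push_cast; linarith)
    (by rw [ha1']; rw [hag'] at hmono; push_cast at hmono ⊢; linarith)
  have hg := hagree f (by omega) le_rfl
  rw [hag, zero_sub] at hg
  have hstay := stay (T := f) (T' := f') (w := w) ha' (by omega) hpos'
    (by rw [ha1', hag']; push_cast; linarith)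
    (by
      intro k hk1 hk2 hk3 p hp hpw hpk hpV
      have hpM : (p : ℤ) ∣ 4 * (m : ℤ) ^ 2 - 4 * (m' : ℤ) ^ 2 :=
        (Int.natCast_dvd_natCast.2 (hM p hp.one_lt.le hpw)).trans hMΔ
      have hpMm : (p : ℤ) ∣ (m : ℤ) - m' :=
        (Int.natCast_dvd_natCast.2 (hM p hp.one_lt.le hpw)).trans hMd
      rw [hk3] at hpk
      have hgk : (p : ℤ) ∣ (f : ℤ) - k := by
        have : (f : ℤ) - k = (a' f - ((k : ℤ) - f)) + (4 * (m : ℤ) ^ 2 - 4 * (m' : ℤ) ^ 2) := by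
          linarith
        rw [this]
        exact dvd_add hpk hpM
      have h3 : (p : ℤ) ∣ (((f + 1) * (f + 2 * m + 1) : ℕ) : ℤ) := by
        have e : (((f + 1) * (f + 2 * m + 1) : ℕ) : ℤ) = VV m' (k + 1) +
            ((f : ℤ) - k) * (f + k + 2 + 2 * m) + ((m : ℤ) - m') * (2 * (k + 1)) := by
          unfold VV
          push_cast
          ring
        rw [e]
        exact dvd_add (dvd_add hpV (Dvd.dvd.mul_right hgk _)) (Dvd.dvd.mul_right hpMm _)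
      have h4 : p ∣ (f + 1) * (f + 2 * m + 1) := by exact_mod_cast h3
      rcases (hp.dvd_mul).1 h4 with h5 | h5
      · have h6 := (Nat.prime_dvd_prime_iff_eq hp hp1).1 h5
        omega
      · have h6 := (Nat.prime_dvd_prime_iff_eq hp hp2).1 h5
        omega)
  have h5 := hstay f' hff le_rfl
  rw [hag'] at h5
  have h6 : (4 * (m : ℤ) ^ 2 + f') = 4 * (m' : ℤ) ^ 2 + f := by linarith
  exact_mod_cast h6

lemma same_loss {m f m' f' M w : ℕ} (hM : ∀ q : ℕ, 1 ≤ q → q ≤ w → q ∣ M) (hm : 1 ≤ m)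
    (hm' : 1 ≤ m') (h : FirstZero m f) (h' : FirstZero m' f') (hmod : m % M = m' % M)
    (hl : 4 * m ^ 2 + 1 < f + w) (hl' : 4 * m' ^ 2 + 1 < f' + w)
    (hp1 : (f + 1).Prime) (hp2 : (f + 2 * m + 1).Prime) (hw1 : w < f + 1)
    (hp1' : (f' + 1).Prime) (hp2' : (f' + 2 * m' + 1).Prime) (hw1' : w < f' + 1) :
    4 * m ^ 2 + f' = 4 * m' ^ 2 + f := by
  rcases le_total f f' with hff | hff
  · exact same_loss_aux hM hm hm' h h' hmod hff hl hl' hp1 hp2 hw1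
  · exact (same_loss_aux hM hm' hm h' h hmod.symm hff hl' hl hp1' hp2' hw1').symm

end Pool.Agent.Q37.FZ
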