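import Pool.Agent.Q37.FZ.Sieve
import Pool.Agent.Q37.FZ.Walk

set_option autoImplicit false
set_option maxHeartbeats 1000000

/-! # The loss of the first zero -/

namespace Pool.Agent.Q37.FZ

open Finset Filter

open Classical in
/-- the `m ≤ X` with a loss of at most `D` -/
noncomputable def LS (X D : ℕ) : Finset ℕ :=
  (Icc 1 X).filter (fun m => ∃ f, FirstZero m f ∧ 4 * m ^ 2 + 1 ≤ f + D)

open Classical in
lemma mem_LS {X D m : ℕ} : m ∈ LS X D ↔ (1 ≤ m ∧ m ≤ X) ∧ ∃ f, FirstZero m f ∧ 4 * m ^ 2 + 1 ≤ f + D := by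
  unfold LS
  rw [mem_filter, mem_Icc]

open Classical in
lemma card_LS (X D : ℕ) : ((LS X D).card : ℝ) ≤ X := by
  unfold LS
  have := card_filter_le (Icc 1 X) (fun m => ∃ f, FirstZero m f ∧ 4 * m ^ 2 + 1 ≤ f + D)
  rw [Nat.card_Icc, Nat.add_sub_cancel] at this
  exact_mod_cast this

/-- an element above the threshold -/
lemma good_elem {m₀ : ℕ} (hm₀ : ∀ m f D : ℕ, m₀ ≤ m → FirstZero m f →
    4 * m ^ 2 + 1 ≤ f + D → 4 * D ≤ m ^ 2 → (f + 1).Prime ∧ (f + 2 * m + 1).Prime)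
    {X D m f : ℕ} (h : FirstZero m f) (hl : 4 * m ^ 2 + 1 ≤ f + D)
    (hN : Nat.sqrt X + D + m₀ + 2 ≤ m) :
    ∃ L, L ≤ D ∧ L ≠ 2 ∧ f + L = 4 * m ^ 2 + 1 ∧ (f + 1).Prime ∧ (f + 2 * m + 1).Prime ∧
      D + 1 < f + 1 ∧
      (∀ p : ℕ, p.Prime → p * p ≤ X →
        ¬ (p : ℤ) ∣ 4 * (m : ℤ) ^ 2 + 2 - L ∧ ¬ (p : ℤ) ∣ 4 * (m : ℤ) ^ 2 + 2 * m + 2 - L) := by
  obtain ⟨b, -, -, -, -, -, hfle⟩ := FirstZero.pack (by omega) h
  have hD4 : 4 * D ≤ m ^ 2 := by nlinarith [show D + 2 ≤ m by omega]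
  obtain ⟨hp1, hp2⟩ := hm₀ m f D (by omega) h hl hD4
  have hmm : m * 2 ≤ m ^ 2 := by nlinarith [show 2 ≤ m by omega]
  obtain ⟨L, hL⟩ : ∃ L, L = 4 * m ^ 2 + 1 - f := ⟨_, rfl⟩
  have hfL : f + L = 4 * m ^ 2 + 1 := by omega
  have hfm : m < f + 1 := by omega
  refine ⟨L, by omega, ?_, hfL, hp1, hp2, by omega, ?_⟩
  · intro h2
    have h3 : f + 1 = 2 * (2 * m ^ 2) := by omega
    rw [h3] at hp1
    have h4 := (Nat.prime_mul_iff.1 hp1)
    rcases h4 with ⟨-, h5⟩ | ⟨-, h5⟩ <;> omega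
  · intro p hp hpX
    have hps : p ≤ Nat.sqrt X := Nat.le_sqrt.2 hpX
    have e1 : 4 * (m : ℤ) ^ 2 + 2 - L = ((f + 1 : ℕ) : ℤ) := by
      have : ((f + L : ℕ) : ℤ) = ((4 * m ^ 2 + 1 : ℕ) : ℤ) := by rw [hfL]
      push_cast at this ⊢
      linarith
    have e2 : 4 * (m : ℤ) ^ 2 + 2 * m + 2 - L = ((f + 2 * m + 1 : ℕ) : ℤ) := by
      have : ((f + L : ℕ) : ℤ) = ((4 * m ^ 2 + 1 : ℕ) : ℤ) := by rw [hfL]
      push_cast at this ⊢
      linarith
    rw [e1, e2, Int.natCast_dvd_natCast, Int.natCast_dvd_natCast]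
    constructor
    · intro hd
      have := (Nat.prime_dvd_prime_iff_eq hp hp1).1 hd
      omega
    · intro hd
      have := (Nat.prime_dvd_prime_iff_eq hp hp2).1 hd
      omega

/-- the threshold is small -/
lemma threshold (m₀ : ℕ) : ∀ᶠ X : ℕ in atTop, ∀ D : ℕ, (D : ℝ) ≤ Real.log X ^ 2 →
    ((Nat.sqrt X + D + m₀ + 2 : ℕ) : ℝ) ≤ 3 * (X / Real.log X ^ 2) := by
  have hlogt : Tendsto (fun X : ℕ => Real.log (X : ℝ)) atTop atTop :=
    Real.tendsto_log_atTop.comp tendsto_natCast_atTop_atTop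
  filter_upwards [Pool.Agent.Q55.GcdSieve.log_pow_le 4, hlogt.eventually_ge_atTop ((m₀ : ℝ) + 3),
    eventually_ge_atTop 3] with X h4 hl hX D hD
  have hXr : (3 : ℝ) ≤ X := by exact_mod_cast hX
  have hm0 : (0 : ℝ) ≤ m₀ := Nat.cast_nonneg _
  have hl0 : 0 < Real.log X := by linarith
  have h2 : Real.log X ^ 2 ≤ X / Real.log X ^ 2 := by
    rw [le_div_iff₀ (by positivity), ← pow_add]
    exact h4
  have h3 : √(X : ℝ) ≤ X / Real.log X ^ 2 := by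
    rw [Real.sqrt_le_left (by positivity), div_pow, ← pow_mul, le_div_iff₀ (by positivity)]
    calc (X : ℝ) * Real.log X ^ (2 * 2) = (X : ℝ) * Real.log X ^ 4 := by norm_num
      _ ≤ (X : ℝ) * X := mul_le_mul_of_nonneg_left h4 (by positivity)
      _ = (X : ℝ) ^ 2 := by ring
  have h5 : (Nat.sqrt X : ℝ) ≤ √(X : ℝ) := Real.nat_sqrt_le_real_sqrt
  have h6 : (m₀ : ℝ) + 2 ≤ Real.log X ^ 2 := by nlinarith
  push_cast
  linarith

open Classical in
/-- small losses are rare -/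
theorem small (ε : ℝ) (hε : 0 < ε) : ∃ C : ℝ, 1 ≤ C ∧ ∀ X D : ℕ, 2 ≤ X → 1 ≤ D →
    (D : ℝ) ≤ Real.log X / 24 → ((LS X D).card : ℝ) ≤ C * (X * ((D : ℝ) ^ ε / Real.log X ^ 2)) := by
  obtain ⟨m₀, hm02, hm₀⟩ := prime_of_loss
  obtain ⟨C, hC, X₀, h⟩ := rough_cls ε hε
  obtain ⟨X₁, hX₁⟩ := eventually_atTop.1 ((threshold m₀).and (eventually_ge_atTop 3))
  obtain ⟨X₃, hX₃⟩ : ∃ X₃ : ℕ, X₃ = max X₀ X₁ := ⟨_, rfl⟩
  refine ⟨C * 12 ^ ε + 3 + Real.log X₃ ^ 2, ?_, ?_⟩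
  · have h1 : 0 < C * 12 ^ ε := by positivity
    have h2 : 0 ≤ Real.log X₃ ^ 2 := by positivity
    linarith
  intro X D hX hD1 hD
  have hXr : (2 : ℝ) ≤ X := by exact_mod_cast hX
  have hlX : 0 < Real.log X := Real.log_pos (by linarith)
  have hDr : (1 : ℝ) ≤ D := by exact_mod_cast hD1
  have hDe : 1 ≤ (D : ℝ) ^ ε := Real.one_le_rpow hDr hε.le
  obtain ⟨G, hG⟩ : ∃ G : ℝ, G = X * ((D : ℝ) ^ ε / Real.log X ^ 2) := ⟨_, rfl⟩
  have hG0 : 0 < G := by rw [hG]; positivity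
  have hGX : X / Real.log X ^ 2 ≤ G := by
    rw [hG, mul_div_assoc']
    apply div_le_div_of_nonneg_right _ (by positivity)
    nlinarith
  rw [← hG]
  rcases lt_or_ge X X₃ with hlt | hge
  · have h3 : Real.log X ≤ Real.log X₃ := Real.log_le_log (by linarith) (by exact_mod_cast hlt.le)
    have h4 : (X : ℝ) ≤ Real.log X₃ ^ 2 * G := by
      have h5 : Real.log X ^ 2 ≤ Real.log X₃ ^ 2 := pow_le_pow_left₀ hlX.le h3 2
      calc (X : ℝ) = Real.log X ^ 2 * (X / Real.log X ^ 2) := by field_simp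
        _ ≤ Real.log X₃ ^ 2 * G := mul_le_mul h5 hGX (by positivity) (by positivity)
    have h6 := card_LS X D
    have h7 : 0 ≤ (C * 12 ^ ε + 3) * G := by positivity
    nlinarith
  · obtain ⟨hth, hX3⟩ := hX₁ X ((le_max_right _ _).trans (hX₃ ▸ hge))
    have g0 : X₀ ≤ X := (le_max_left _ _).trans (hX₃ ▸ hge)
    obtain ⟨M, hMdef⟩ : ∃ M : ℕ, M = Nat.lcmUpto (D + 1) := ⟨_, rfl⟩
    have hM1 : 1 ≤ M := hMdef ▸ Nat.lcmUpto_pos _
    have hMX : M * M ≤ X := hMdef ▸ Pool.Agent.Q55.GcdSmall.lcm_sq hX hD1 hD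
    have hMq : ∀ q : ℕ, 1 ≤ q → q ≤ D + 1 → q ∣ M := by
      intro q hq1 hq2
      rw [hMdef]
      exact Pool.Agent.Q55.GcdSmall.dvd_lcm hq1 hq2
    obtain ⟨w, hw⟩ : ∃ w : ℕ, w = 4 * D + 8 := ⟨_, rfl⟩
    have hMp : ∀ p : ℕ, p.Prime → w < p → ¬ p ∣ M := by
      intro p hp hwp hd
      rw [hMdef] at hd
      have := Pool.Agent.Q55.GcdSmall.prime_lcm hp hd
      omega
    obtain ⟨N₁, hN₁⟩ : ∃ N₁ : ℕ, N₁ = Nat.sqrt X + D + m₀ + 2 := ⟨_, rfl⟩
    have hN1le : (N₁ : ℝ) ≤ 3 * G := by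
      have hD2 : (D : ℝ) ≤ Real.log X ^ 2 := by
        have h1 : (24 : ℝ) ≤ Real.log X := by linarith
        nlinarith
      have := hth D hD2
      rw [← hN₁] at this
      linarith
    have hMpos : (0 : ℝ) < M := by exact_mod_cast (by omega : 0 < M)
    obtain ⟨A, hA⟩ : ∃ A : Finset ℕ, A = (LS X D).filter (fun m => N₁ ≤ m) := ⟨_, rfl⟩
    have hcard : A.card = ∑ r₀ ∈ range M, (A.filter (fun m => m % M = r₀)).card :=
      Finset.card_eq_sum_card_fiberwise (fun m _ => by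
        rw [mem_coe, mem_range]
        exact Nat.mod_lt _ (by omega))
    have hw12 : (w : ℝ) ^ ε ≤ 12 ^ ε * (D : ℝ) ^ ε := by
      rw [← Real.mul_rpow (by norm_num) (by linarith)]
      apply Real.rpow_le_rpow (Nat.cast_nonneg _) _ hε.le
      rw [hw]; push_cast; linarith
    have hone : ∀ r₀ ∈ range M, ((A.filter (fun m => m % M = r₀)).card : ℝ) ≤
        C * (X / M * ((w : ℝ) ^ ε / Real.log X ^ 2)) := by
      intro r₀ _
      by_cases hne : ∃ m ∈ A, m % M = r₀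
      · obtain ⟨m₁, hm₁, hr₁⟩ := hne
        rw [hA, mem_filter, mem_LS] at hm₁
        obtain ⟨⟨⟨h11, h12⟩, f₁, hf₁, hl₁⟩, hN⟩ := hm₁
        obtain ⟨L, hLD, hL2, hfL, hp1, hp2, hDf, -⟩ := good_elem hm₀ hf₁ hl₁ (hN₁ ▸ hN)
        refine le_trans ?_ (h X M w L r₀ g0 hM1 hMX (by omega) hL2 hMp)
        rw [Nat.cast_le]
        apply card_le_card
        intro m hm
        rw [mem_filter, hA, mem_filter, mem_LS] at hm
        obtain ⟨⟨⟨⟨h21, h22⟩, f, hf, hl⟩, hN'⟩, hr⟩ := hm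
        obtain ⟨L', hLD', hL2', hfL', hp1', hp2', hDf', hno⟩ := good_elem hm₀ hf hl (hN₁ ▸ hN')
        have hsame := same_loss (w := D + 1) hMq h11 h21 hf₁ hf (by rw [hr₁, hr]) (by omega) (by omega)
          hp1 hp2 hDf hp1' hp2' hDf'
        have hLL : L' = L := by omega
        rw [mem_filter, mem_Icc]
        refine ⟨⟨h21, h22⟩, hr, ?_⟩
        intro p hp _ hpX
        rw [← hLL]
        exact hno p hp hpX
      · have : A.filter (fun m => m % M = r₀) = ∅ := by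
          rw [filter_eq_empty_iff]
          intro m hm h1
          exact hne ⟨m, hm, h1⟩
        rw [this]
        simp only [card_empty, Nat.cast_zero]
        positivity
    have hAle : (A.card : ℝ) ≤ C * 12 ^ ε * G := by
      rw [hcard]
      push_cast
      refine (Finset.sum_le_sum hone).trans ?_
      rw [Finset.sum_const, card_range, nsmul_eq_mul]
      calc (M : ℝ) * (C * (X / M * ((w : ℝ) ^ ε / Real.log X ^ 2)))
          = C * (X * ((w : ℝ) ^ ε / Real.log X ^ 2)) := by field_simp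
        _ ≤ C * (X * ((12 ^ ε * (D : ℝ) ^ ε) / Real.log X ^ 2)) := by gcongr
        _ = C * 12 ^ ε * G := by rw [hG]; ring
    have hsplit : (LS X D).card ≤ A.card + N₁ := by
      have h1 : LS X D ⊆ A ∪ range N₁ := by
        intro m hm
        rw [mem_union, mem_range, hA, mem_filter]
        by_cases h1 : N₁ ≤ m
        · left; exact ⟨hm, h1⟩
        · right; omega
      have := (card_le_card h1).trans (card_union_le _ _)
      rwa [card_range] at this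
    have h6 : ((LS X D).card : ℝ) ≤ A.card + N₁ := by exact_mod_cast hsplit
    have h7 : 0 ≤ Real.log X₃ ^ 2 * G := by positivity
    nlinarith

open Classical in
/-- all sizes of the loss -/
theorem large (ε : ℝ) (hε : 0 < ε) : ∃ C : ℝ, 1 ≤ C ∧ ∀ X D : ℕ, 2 ≤ X → 1 ≤ D →
    ((LS X D).card : ℝ) ≤ C * (X * ((D : ℝ) ^ (1 + ε) / Real.log X ^ 2)) := by
  obtain ⟨m₀, hm02, hm₀⟩ := prime_of_loss
  obtain ⟨C, hC, X₀, h⟩ := rough_cls ε hε
  obtain ⟨X₁, hX₁⟩ := eventually_atTop.1 ((threshold m₀).and (eventually_ge_atTop 3))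
  obtain ⟨X₃, hX₃⟩ : ∃ X₃ : ℕ, X₃ = max X₀ X₁ := ⟨_, rfl⟩
  refine ⟨2 * C * 12 ^ ε + 3 + Real.log X₃ ^ 2, ?_, ?_⟩
  · have h1 : 0 < 2 * C * 12 ^ ε := by positivity
    have h2 : 0 ≤ Real.log X₃ ^ 2 := by positivity
    linarith
  intro X D hX hD1
  have hXr : (2 : ℝ) ≤ X := by exact_mod_cast hX
  have hlX : 0 < Real.log X := Real.log_pos (by linarith)
  have hDr : (1 : ℝ) ≤ D := by exact_mod_cast hD1
  have hDe : 1 ≤ (D : ℝ) ^ ε := Real.one_le_rpow hDr hε.le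
  have hD1e : (D : ℝ) ^ (1 + ε) = D * (D : ℝ) ^ ε := by
    rw [Real.rpow_add (by linarith), Real.rpow_one]
  have hDD : (D : ℝ) ≤ (D : ℝ) ^ (1 + ε) := by rw [hD1e]; nlinarith
  obtain ⟨G, hG⟩ : ∃ G : ℝ, G = X * ((D : ℝ) ^ (1 + ε) / Real.log X ^ 2) := ⟨_, rfl⟩
  have hG0 : 0 < G := by rw [hG]; positivity
  have hGX : X / Real.log X ^ 2 ≤ G := by
    rw [hG, mul_div_assoc']
    apply div_le_div_of_nonneg_right _ (by positivity)
    nlinarith
  rw [← hG]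
  have h12 : 0 < 2 * C * (12 : ℝ) ^ ε := by positivity
  have hl3 : 0 ≤ Real.log X₃ ^ 2 := by positivity
  rcases lt_or_ge X X₃ with hlt | hge
  · have h3 : Real.log X ≤ Real.log X₃ := Real.log_le_log (by linarith) (by exact_mod_cast hlt.le)
    have h4 : (X : ℝ) ≤ Real.log X₃ ^ 2 * G := by
      have h5 : Real.log X ^ 2 ≤ Real.log X₃ ^ 2 := pow_le_pow_left₀ hlX.le h3 2
      calc (X : ℝ) = Real.log X ^ 2 * (X / Real.log X ^ 2) := by field_simp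
        _ ≤ Real.log X₃ ^ 2 * G := mul_le_mul h5 hGX (by positivity) (by positivity)
    have h6 := card_LS X D
    have h7 : 0 ≤ (2 * C * 12 ^ ε + 3) * G := by positivity
    nlinarith
  rcases lt_or_ge (Real.log X ^ 2) (D : ℝ) with hbig | hD
  · have h6 := card_LS X D
    have h7 : (X : ℝ) ≤ G := by
      rw [hG]
      have : 1 ≤ (D : ℝ) ^ (1 + ε) / Real.log X ^ 2 := by
        rw [le_div_iff₀ (by positivity), one_mul]; linarith
      nlinarith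
    nlinarith [mul_pos h12 hG0, mul_nonneg hl3 hG0.le]
  · obtain ⟨hth, hX3⟩ := hX₁ X ((le_max_right _ _).trans (hX₃ ▸ hge))
    have g0 : X₀ ≤ X := (le_max_left _ _).trans (hX₃ ▸ hge)
    obtain ⟨w, hw⟩ : ∃ w : ℕ, w = 4 * D + 8 := ⟨_, rfl⟩
    obtain ⟨N₁, hN₁⟩ : ∃ N₁ : ℕ, N₁ = Nat.sqrt X + D + m₀ + 2 := ⟨_, rfl⟩
    have hN1le : (N₁ : ℝ) ≤ 3 * G := by
      have := hth D hD
      rw [← hN₁] at this
      linarith
    have hw12 : (w : ℝ) ^ ε ≤ 12 ^ ε * (D : ℝ) ^ ε := by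
      rw [← Real.mul_rpow (by norm_num) (by linarith)]
      apply Real.rpow_le_rpow (Nat.cast_nonneg _) _ hε.le
      rw [hw]; push_cast; linarith
    have hsub : LS X D ⊆ range N₁ ∪ ((range (D + 1)).filter (fun L => L ≠ 2)).biUnion (fun L =>
        (Icc 1 X).filter (fun m : ℕ => m % 1 = 0 ∧ ∀ p : ℕ, p.Prime → w < p → p * p ≤ X →
        ¬ (p : ℤ) ∣ 4 * (m : ℤ) ^ 2 + 2 - L ∧ ¬ (p : ℤ) ∣ 4 * (m : ℤ) ^ 2 + 2 * m + 2 - L)) := by
      intro m hm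
      rw [mem_union, mem_range]
      rcases lt_or_ge m N₁ with h1 | h1
      · exact Or.inl h1
      · right
        rw [mem_LS] at hm
        obtain ⟨⟨h21, h22⟩, f, hf, hl⟩ := hm
        obtain ⟨L, hLD, hL2, hfL, -, -, -, hno⟩ := good_elem hm₀ hf hl (hN₁ ▸ h1)
        rw [mem_biUnion]
        refine ⟨L, ?_, ?_⟩
        · rw [mem_filter, mem_range]; exact ⟨by omega, hL2⟩
        · rw [mem_filter, mem_Icc]
          exact ⟨⟨h21, h22⟩, Nat.mod_one m, fun p hp _ hpX => hno p hp hpX⟩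
    have h1 := (card_le_card hsub).trans ((card_union_le _ _).trans (Nat.add_le_add_left card_biUnion_le _))
    rw [card_range] at h1
    have h2 : ((LS X D).card : ℝ) ≤ N₁ + ∑ L ∈ (range (D + 1)).filter (fun L => L ≠ 2),
        ((((Icc 1 X).filter (fun m : ℕ => m % 1 = 0 ∧ ∀ p : ℕ, p.Prime → w < p → p * p ≤ X →
        ¬ (p : ℤ) ∣ 4 * (m : ℤ) ^ 2 + 2 - L ∧ ¬ (p : ℤ) ∣ 4 * (m : ℤ) ^ 2 + 2 * m + 2 - L)).card : ℕ) : ℝ) := by
      exact_mod_cast h1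
    have h3 : ∑ L ∈ (range (D + 1)).filter (fun L => L ≠ 2),
        ((((Icc 1 X).filter (fun m : ℕ => m % 1 = 0 ∧ ∀ p : ℕ, p.Prime → w < p → p * p ≤ X →
        ¬ (p : ℤ) ∣ 4 * (m : ℤ) ^ 2 + 2 - L ∧ ¬ (p : ℤ) ∣ 4 * (m : ℤ) ^ 2 + 2 * m + 2 - L)).card : ℕ) : ℝ) ≤
        ∑ L ∈ (range (D + 1)).filter (fun L => L ≠ 2), C * (X / (1 : ℕ) * ((w : ℝ) ^ ε / Real.log X ^ 2)) := by
      apply Finset.sum_le_sum
      intro L hL
      rw [mem_filter, mem_range] at hL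
      exact h X 1 w L 0 g0 le_rfl (by omega) (by omega) hL.2 (by
        intro p hp _ hd
        exact hp.one_lt.ne' (Nat.dvd_one.1 hd))
    have h4 : ∑ L ∈ (range (D + 1)).filter (fun L => L ≠ 2), C * (X / (1 : ℕ) * ((w : ℝ) ^ ε / Real.log X ^ 2)) ≤
        2 * C * 12 ^ ε * G := by
      rw [Finset.sum_const, nsmul_eq_mul]
      have h5 : (((range (D + 1)).filter (fun L => L ≠ 2)).card : ℝ) ≤ 2 * D := by
        have := card_filter_le (range (D + 1)) (fun L => L ≠ 2)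
        rw [card_range] at this
        have h6 : (((range (D + 1)).filter (fun L => L ≠ 2)).card : ℝ) ≤ ((D + 1 : ℕ) : ℝ) := by
          exact_mod_cast this
        push_cast at h6
        linarith
      calc (((range (D + 1)).filter (fun L => L ≠ 2)).card : ℝ) * (C * (X / (1 : ℕ) * ((w : ℝ) ^ ε / Real.log X ^ 2)))
          ≤ (2 * D) * (C * (X / (1 : ℕ) * ((12 ^ ε * (D : ℝ) ^ ε) / Real.log X ^ 2))) := by gcongr
        _ = 2 * C * 12 ^ ε * G := by rw [hG, hD1e]; push_cast; ring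
    nlinarith [mul_nonneg hl3 hG0.le]

lemma LS_mono {X D D' : ℕ} (h : D ≤ D') : LS X D ⊆ LS X D' := by
  intro m hm
  rw [mem_LS] at hm ⊢
  obtain ⟨h1, f, hf, hl⟩ := hm
  exact ⟨h1, f, hf, by omega⟩

/-- almost all `m` have a large loss -/
theorem typical (ε : ℝ) (hε : 0 < ε) (hε1 : ε ≤ 1) : ∃ X₀ : ℕ, ∀ X : ℕ, X₀ ≤ X → ∀ D : ℕ,
    (D : ℝ) ≤ Real.log X ^ (2 - ε) → ((LS X D).card : ℝ) ≤ ε * X := by
  obtain ⟨C, hC, h⟩ := large (ε / 4) (by positivity)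
  have hlogt : Tendsto (fun X : ℕ => Real.log (X : ℝ)) atTop atTop :=
    Real.tendsto_log_atTop.comp tendsto_natCast_atTop_atTop
  have hpow : Tendsto (fun X : ℕ => Real.log (X : ℝ) ^ (ε / 2)) atTop atTop :=
    (tendsto_rpow_atTop (by positivity)).comp hlogt
  obtain ⟨X₀, hX₀⟩ := eventually_atTop.1 (((hlogt.eventually_ge_atTop 1).and
    (hpow.eventually_ge_atTop (C / ε))).and (eventually_ge_atTop 3))
  refine ⟨X₀, fun X hX D hD => ?_⟩
  obtain ⟨⟨hl1, hlp⟩, hX3⟩ := hX₀ X hX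
  have hl0 : 0 < Real.log X := by linarith
  have hXr : (3 : ℝ) ≤ X := by exact_mod_cast hX3
  have hone : (1 : ℝ) ≤ Real.log X ^ (2 - ε) := Real.one_le_rpow hl1 (by linarith)
  obtain ⟨D', hD'⟩ : ∃ D', D' = max D 1 := ⟨_, rfl⟩
  have hD1 : 1 ≤ D' := hD' ▸ le_max_right _ _
  have hDD : D ≤ D' := hD' ▸ le_max_left _ _
  have hle : (D' : ℝ) ≤ Real.log X ^ (2 - ε) := by
    rw [hD']
    push_cast
    exact max_le hD hone
  have h0 : ((LS X D).card : ℝ) ≤ (LS X D').card := by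
    exact_mod_cast card_le_card (LS_mono hDD)
  refine h0.trans ((h X D' (by omega) hD1).trans ?_)
  have hD0 : (0 : ℝ) < D' := by exact_mod_cast (by omega : 0 < D')
  have h2 : (D' : ℝ) ^ (1 + ε / 4) ≤ Real.log X ^ (2 - ε / 2) := by
    calc (D' : ℝ) ^ (1 + ε / 4) ≤ (Real.log X ^ (2 - ε)) ^ (1 + ε / 4) :=
          Real.rpow_le_rpow hD0.le hle (by positivity)
      _ = Real.log X ^ ((2 - ε) * (1 + ε / 4)) := by rw [← Real.rpow_mul hl0.le]
      _ ≤ Real.log X ^ (2 - ε / 2) := by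
          apply Real.rpow_le_rpow_of_exponent_le hl1
          nlinarith
  have h3 : Real.log X ^ (2 - ε / 2) * Real.log X ^ (ε / 2) = Real.log X ^ 2 := by
    rw [← Real.rpow_add hl0, ← Real.rpow_natCast]
    congr 1
    push_cast
    ring
  have hp0 : 0 < Real.log X ^ (ε / 2) := by positivity
  have h4 : C ≤ ε * Real.log X ^ (ε / 2) := by
    rw [div_le_iff₀ hε] at hlp
    linarith
  have h5 : C * (D' : ℝ) ^ (1 + ε / 4) ≤ ε * Real.log X ^ 2 := by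
    calc C * (D' : ℝ) ^ (1 + ε / 4) ≤ (ε * Real.log X ^ (ε / 2)) * Real.log X ^ (2 - ε / 2) := by
          gcongr
      _ = ε * (Real.log X ^ (2 - ε / 2) * Real.log X ^ (ε / 2)) := by ring
      _ = _ := by rw [h3]
  calc C * (X * ((D' : ℝ) ^ (1 + ε / 4) / Real.log X ^ 2))
      = X * (C * (D' : ℝ) ^ (1 + ε / 4)) / Real.log X ^ 2 := by ring
    _ ≤ X * (ε * Real.log X ^ 2) / Real.log X ^ 2 := by gcongr
    _ = ε * X := by field_simp

end Pool.Agent.Q37.FZ
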