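import Pool.Agent.Q55.GcdSieve
import Pool.Agent.W468.CFProd

set_option autoImplicit false
set_option maxHeartbeats 1000000

/-! # Products over primes twisted by real characters, uniformly in the discriminant -/

namespace Pool.Agent.Q37.FZ

open Finset Filter Pool.Agent.H373R2.T7 Pool.Agent.W123.RP Pool.Agent.W468.ConjF

/-- primes of `(w, y]` -/
def PI (w y : ℕ) : Finset ℕ := (Ioc w y).filter Nat.Prime

lemma mem_PI {w y p : ℕ} : p ∈ PI w y ↔ w < p ∧ p ≤ y ∧ p.Prime := by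
  unfold PI
  rw [mem_filter, mem_Ioc, and_assoc]

lemma pz_split {w y : ℕ} (h : w ≤ y) : pz y = pz w ∪ PI w y := by
  ext p
  rw [mem_union, mem_pz, mem_pz, mem_PI]
  constructor
  · rintro ⟨h1, h2⟩
    rcases Nat.lt_or_ge w p with h3 | h3
    · exact Or.inr ⟨h3, h1, h2⟩
    · exact Or.inl ⟨h3, h2⟩
  · rintro (⟨h1, h2⟩ | ⟨-, h2, h3⟩)
    · exact ⟨h1.trans h, h2⟩
    · exact ⟨h2, h3⟩

lemma pz_disj (w y : ℕ) : Disjoint (pz w) (PI w y) := by
  rw [Finset.disjoint_left]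
  intro p h1 h2
  rw [mem_pz] at h1
  rw [mem_PI] at h2
  omega

lemma prod_split {w y : ℕ} (h : w ≤ y) (f : ℕ → ℝ) :
    ∏ p ∈ pz y, f p = (∏ p ∈ pz w, f p) * ∏ p ∈ PI w y, f p := by
  rw [pz_split h, prod_union (pz_disj w y)]

lemma exp_neg_inv_le {p : ℕ} (hp : 2 ≤ p) :
    Real.exp (-(1 / (p : ℝ))) ≤ (1 - 1 / (p : ℝ)) * Real.exp (1 / ((p : ℝ) * (p - 1))) := by
  have h2 : (2 : ℝ) ≤ p := by exact_mod_cast hp
  have h0 : (0 : ℝ) < p - 1 := by linarith
  have h1 : Real.exp (-(1 / ((p : ℝ) - 1))) ≤ 1 - 1 / (p : ℝ) := by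
    rw [Real.exp_neg, inv_le_comm₀ (Real.exp_pos _) (by
      rw [sub_pos, div_lt_one (by linarith)]; linarith)]
    have h3 := Real.add_one_le_exp (1 / ((p : ℝ) - 1))
    refine le_trans (le_of_eq ?_) h3
    field_simp
    ring
  have e : -(1 / (p : ℝ)) = -(1 / ((p : ℝ) - 1)) + 1 / ((p : ℝ) * (p - 1)) := by
    field_simp
    ring
  rw [e, Real.exp_add]
  exact mul_le_mul_of_nonneg_right h1 (Real.exp_pos _).le

/-- Mertens for intervals, in both directions -/
lemma mertens : ∃ C : ℝ, 1 ≤ C ∧ ∀ w y : ℕ, 2 ≤ w → w ≤ y →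
    Real.exp (-∑ p ∈ PI w y, 1 / (p : ℝ)) ≤ C * (Real.log w / Real.log y) ∧
    Real.exp (∑ p ∈ PI w y, 1 / (p : ℝ)) ≤ C * (Real.log y / Real.log w) := by
  obtain ⟨c, C, hc, hC, hV⟩ := Vz_bounds
  refine ⟨(C / c + 1) * Real.exp 1, ?_, ?_⟩
  · have h1 : (1 : ℝ) ≤ Real.exp 1 := Real.one_le_exp (by norm_num)
    have h2 : 0 < C / c := by positivity
    nlinarith
  intro w y hw hwy
  have hlw : 0 < Real.log w := Real.log_pos (by exact_mod_cast (by omega : 1 < w))
  have hly : 0 < Real.log y := Real.log_pos (by exact_mod_cast (by omega : 1 < y))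
  obtain ⟨hw1, hw2⟩ := hV w hw
  obtain ⟨hy1, hy2⟩ := hV y (by omega)
  have hVw : 0 < Vz w := lt_of_lt_of_le (by positivity) hw1
  have hVy : 0 < Vz y := lt_of_lt_of_le (by positivity) hy1
  have hs : Vz y = Vz w * ∏ p ∈ PI w y, (1 - 1 / (p : ℝ)) := by
    unfold Vz
    exact prod_split hwy _
  have hP : ∏ p ∈ PI w y, (1 - 1 / (p : ℝ)) = Vz y / Vz w := by
    rw [hs]; field_simp
  have he1 : (1 : ℝ) ≤ Real.exp 1 := Real.one_le_exp (by norm_num)
  have hCc : 0 < C / c := by positivity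
  constructor
  · have h1 : Real.exp (-∑ p ∈ PI w y, 1 / (p : ℝ)) ≤
        (∏ p ∈ PI w y, (1 - 1 / (p : ℝ))) * Real.exp (∑ p ∈ PI w y, 1 / ((p : ℝ) * (p - 1))) := by
      rw [← Finset.sum_neg_distrib, Real.exp_sum, Real.exp_sum, ← Finset.prod_mul_distrib]
      apply Finset.prod_le_prod
      · intro p _; exact (Real.exp_pos _).le
      · intro p hp
        rw [mem_PI] at hp
        exact exp_neg_inv_le hp.2.2.two_le
    have h2 : ∑ p ∈ PI w y, 1 / ((p : ℝ) * (p - 1)) ≤ 1 := by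
      have h3 : ∑ p ∈ PI w y, 1 / ((p : ℝ) * (p - 1)) ≤ ∑ p ∈ Ioc w y, 1 / ((p : ℝ) * (p - 1)) := by
        apply Finset.sum_le_sum_of_subset_of_nonneg (filter_subset _ _)
        intro p hp _
        rw [mem_Ioc] at hp
        have : (1 : ℝ) ≤ p := by exact_mod_cast (by omega : 1 ≤ p)
        have h4 : 0 ≤ (p : ℝ) * (p - 1) := by nlinarith
        positivity
      have h4 := sum_inv_mul w y (by omega) hwy
      have h5 : 1 / (w : ℝ) ≤ 1 := by
        rw [div_le_one (by exact_mod_cast (by omega : 0 < w))]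
        exact_mod_cast (by omega : 1 ≤ w)
      have h6 : 0 ≤ 1 / (y : ℝ) := by positivity
      linarith
    rw [hP] at h1
    refine h1.trans ?_
    calc Vz y / Vz w * Real.exp (∑ p ∈ PI w y, 1 / ((p : ℝ) * (p - 1)))
        ≤ (C / Real.log y) / (c / Real.log w) * Real.exp 1 := by
          apply mul_le_mul _ (Real.exp_le_exp.2 h2) (Real.exp_pos _).le (by positivity)
          exact div_le_div₀ (by positivity) hy2 (by positivity) hw1
      _ = (C / c) * Real.exp 1 * (Real.log w / Real.log y) := by field_simp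
      _ ≤ (C / c + 1) * Real.exp 1 * (Real.log w / Real.log y) := by
          gcongr
          linarith
  · have h1 : Real.exp (∑ p ∈ PI w y, 1 / (p : ℝ)) * ∏ p ∈ PI w y, (1 - 1 / (p : ℝ)) ≤ 1 := by
      rw [Real.exp_sum, ← Finset.prod_mul_distrib]
      apply Finset.prod_le_one
      · intro p hp
        rw [mem_PI] at hp
        exact mul_nonneg (Real.exp_pos _).le (Pool.Agent.Q55.GcdSieve.fac_nonneg hp.2.2)
      · intro p hp
        have h2 := Real.add_one_le_exp (-(1 / (p : ℝ)))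
        have h3 : Real.exp (1 / (p : ℝ)) * Real.exp (-(1 / (p : ℝ))) = 1 := by
          rw [← Real.exp_add]; simp
        calc Real.exp (1 / (p : ℝ)) * (1 - 1 / (p : ℝ)) ≤
            Real.exp (1 / (p : ℝ)) * Real.exp (-(1 / (p : ℝ))) :=
              mul_le_mul_of_nonneg_left (by linarith) (Real.exp_pos _).le
          _ = 1 := h3
    rw [hP, mul_div_assoc', div_le_one hVw] at h1
    have h2 : Real.exp (∑ p ∈ PI w y, 1 / (p : ℝ)) ≤ Vz w / Vz y := by
      rw [le_div_iff₀ hVy]; exact h1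
    refine h2.trans ?_
    calc Vz w / Vz y ≤ (C / Real.log w) / (c / Real.log y) :=
          div_le_div₀ (by positivity) hw2 (by positivity) hy1
      _ = (C / c) * 1 * (Real.log y / Real.log w) := by field_simp
      _ ≤ (C / c + 1) * Real.exp 1 * (Real.log y / Real.log w) := by
          gcongr
          linarith

lemma SJ_def' (D : ℤ) (w y : ℕ) : SJ D w y = ∑ p ∈ PI w y, (jacobiSym D p : ℝ) / p := rfl

lemma SJ_ge (D : ℤ) (w y : ℕ) : -SJ D w y ≤ ∑ p ∈ PI w y, 1 / (p : ℝ) := by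
  rw [SJ_def', ← Finset.sum_neg_distrib]
  apply Finset.sum_le_sum
  intro p hp
  rw [mem_PI] at hp
  have h0 : (0 : ℝ) < p := by exact_mod_cast hp.2.2.pos
  rw [← neg_div]
  apply div_le_div_of_nonneg_right _ h0.le
  have := (abs_le.1 (js_abs D p)).1
  linarith

lemma SJ_square {D : ℤ} (hD : IsSquare D) (w y : ℕ) : -SJ D w y ≤ 0 := by
  rw [neg_nonpos, SJ_def']
  apply Finset.sum_nonneg
  intro p hp
  rw [mem_PI] at hp
  obtain ⟨d, rfl⟩ := hD
  rw [jacobiSym.mul_left]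
  push_cast
  have : (0 : ℝ) ≤ (jacobiSym d p : ℝ) * (jacobiSym d p : ℝ) := mul_self_nonneg _
  positivity

/-- the twisted product is small -/
lemma twisted (B : ℕ) (hB : 1 ≤ B) : ∃ C : ℝ, 1 ≤ C ∧ ∀ (D : ℤ) (w y : ℕ), 2 ≤ w → w ≤ y →
    D.natAbs ≤ w → Real.exp (-SJ D w y) ≤ C * (w : ℝ) ^ (1 / (B : ℝ)) := by
  obtain ⟨n₁, hn₁⟩ := tail B
  obtain ⟨C, hC, hm⟩ := mertens
  have hBr : (1 : ℝ) ≤ B := by exact_mod_cast hB
  have hB0 : (0 : ℝ) < B := by linarith
  obtain ⟨A, hA⟩ : ∃ A : ℝ, A = 4 + 2 * B + Real.log (n₁ + 5) := ⟨_, rfl⟩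
  have hn0 : 0 ≤ Real.log ((n₁ : ℝ) + 5) := Real.log_nonneg (by
    have : (0 : ℝ) ≤ n₁ := Nat.cast_nonneg _
    linarith)
  have hA6 : 6 ≤ A := by linarith
  have hl2 : 0 < Real.log 2 := Real.log_pos (by norm_num)
  refine ⟨1 + C * (A / Real.log 2) * Real.exp 210, ?_, ?_⟩
  · have : 0 < C * (A / Real.log 2) * Real.exp 210 := by positivity
    linarith
  intro D w y hw hwy hD
  have hwr : (2 : ℝ) ≤ w := by exact_mod_cast hw
  have hw1 : (1 : ℝ) ≤ (w : ℝ) ^ (1 / (B : ℝ)) := Real.one_le_rpow (by linarith) (by positivity)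
  by_cases hsq : IsSquare D
  · have h1 : Real.exp (-SJ D w y) ≤ 1 := Real.exp_le_one_iff.2 (SJ_square hsq w y)
    have h2 : 0 < C * (A / Real.log 2) * Real.exp 210 := by positivity
    nlinarith
  obtain ⟨T, hT⟩ : ∃ T : ℝ, T = Real.exp ((4 * (w : ℝ)) ^ (1 / (B : ℝ))) := ⟨_, rfl⟩
  have hT1 : 1 ≤ T := by
    rw [hT]; exact Real.one_le_exp (by positivity)
  obtain ⟨y1, hy1⟩ : ∃ y1 : ℕ, y1 = ⌈T⌉₊ + n₁ + w + 3 := ⟨_, rfl⟩
  have hwy1 : w ≤ y1 := by omega
  have hy1r : (y1 : ℝ) ≤ T * (n₁ + 5) * (w + 1) := by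
    have h1 := Nat.ceil_lt_add_one (show 0 ≤ T by linarith)
    have h3 : (0 : ℝ) ≤ n₁ := Nat.cast_nonneg _
    have h4 : (y1 : ℝ) = (⌈T⌉₊ : ℝ) + n₁ + w + 3 := by rw [hy1]; push_cast; ring
    rw [h4]
    have h5 : (n₁ : ℝ) + 5 ≤ T * (n₁ + 5) := by nlinarith
    have h6 : T ≤ T * (n₁ + 5) * 1 := by nlinarith
    nlinarith [mul_nonneg (by linarith : (0:ℝ) ≤ T * (n₁ + 5) - (n₁ + 5)) (by linarith : (0:ℝ) ≤ (w:ℝ))]
  have hlogy1 : Real.log y1 ≤ A * (w : ℝ) ^ (1 / (B : ℝ)) := by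
    have h0 : (0 : ℝ) < y1 := by exact_mod_cast (by omega : 0 < y1)
    have h3 : (0 : ℝ) ≤ n₁ := Nat.cast_nonneg _
    have h1 := Real.log_le_log h0 hy1r
    rw [Real.log_mul (by positivity) (by positivity), Real.log_mul (by positivity) (by positivity)] at h1
    have h2 : Real.log T = (4 * (w : ℝ)) ^ (1 / (B : ℝ)) := by rw [hT, Real.log_exp]
    have h4 : (4 * (w : ℝ)) ^ (1 / (B : ℝ)) ≤ 4 * (w : ℝ) ^ (1 / (B : ℝ)) := by
      rw [Real.mul_rpow (by norm_num) (by linarith)]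
      apply mul_le_mul_of_nonneg_right _ (by positivity)
      calc (4 : ℝ) ^ (1 / (B : ℝ)) ≤ (4 : ℝ) ^ (1 : ℝ) := by
            apply Real.rpow_le_rpow_of_exponent_le (by norm_num)
            rw [div_le_one hB0]; exact hBr
        _ = 4 := Real.rpow_one _
    have h5 : Real.log ((w : ℝ) + 1) ≤ 2 * B * (w : ℝ) ^ (1 / (B : ℝ)) := by
      have h6 := Real.log_le_rpow_div (x := (w : ℝ) + 1) (by linarith) (show 0 < 1 / (B : ℝ) by positivity)
      have h7 : ((w : ℝ) + 1) ^ (1 / (B : ℝ)) ≤ 2 * (w : ℝ) ^ (1 / (B : ℝ)) := by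
        calc ((w : ℝ) + 1) ^ (1 / (B : ℝ)) ≤ (2 * (w : ℝ)) ^ (1 / (B : ℝ)) := by
              apply Real.rpow_le_rpow (by linarith) (by linarith) (by positivity)
          _ = (2 : ℝ) ^ (1 / (B : ℝ)) * (w : ℝ) ^ (1 / (B : ℝ)) := Real.mul_rpow (by norm_num) (by linarith)
          _ ≤ 2 * (w : ℝ) ^ (1 / (B : ℝ)) := by
              apply mul_le_mul_of_nonneg_right _ (by positivity)
              calc (2 : ℝ) ^ (1 / (B : ℝ)) ≤ (2 : ℝ) ^ (1 : ℝ) := by
                    apply Real.rpow_le_rpow_of_exponent_le (by norm_num)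
                    rw [div_le_one hB0]; exact hBr
                _ = 2 := Real.rpow_one _
      calc Real.log ((w : ℝ) + 1) ≤ ((w : ℝ) + 1) ^ (1 / (B : ℝ)) / (1 / (B : ℝ)) := h6
        _ = B * ((w : ℝ) + 1) ^ (1 / (B : ℝ)) := by field_simp
        _ ≤ B * (2 * (w : ℝ) ^ (1 / (B : ℝ))) := mul_le_mul_of_nonneg_left h7 hB0.le
        _ = _ := by ring
    have h8 : Real.log ((n₁ : ℝ) + 5) ≤ Real.log ((n₁ : ℝ) + 5) * (w : ℝ) ^ (1 / (B : ℝ)) := by
      nlinarith
    rw [hA]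
    nlinarith
  have hlw : Real.log 2 ≤ Real.log w := Real.log_le_log (by norm_num) hwr
  have hlw0 : 0 < Real.log w := by linarith
  -- the initial part
  have hinit : ∀ v : ℕ, w ≤ v → v ≤ y1 → Real.exp (-SJ D w v) ≤ C * (A / Real.log 2) * (w : ℝ) ^ (1 / (B : ℝ)) := by
    intro v hv1 hv2
    have h1 := (hm w v hw hv1).2
    have h2 : Real.exp (-SJ D w v) ≤ Real.exp (∑ p ∈ PI w v, 1 / (p : ℝ)) := Real.exp_le_exp.2 (SJ_ge D w v)
    refine (h2.trans h1).trans ?_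
    have h3 : Real.log v ≤ A * (w : ℝ) ^ (1 / (B : ℝ)) :=
      (Real.log_le_log (by exact_mod_cast (by omega : 0 < v)) (by exact_mod_cast hv2)).trans hlogy1
    have h4 : 0 ≤ Real.log v := Real.log_natCast_nonneg _
    calc C * (Real.log v / Real.log w) ≤ C * (A * (w : ℝ) ^ (1 / (B : ℝ)) / Real.log 2) := by
          gcongr
      _ = _ := by ring
  have he : (1 : ℝ) ≤ Real.exp 210 := Real.one_le_exp (by norm_num)
  have hCA : 0 < C * (A / Real.log 2) := by positivity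
  have hw0 : 0 ≤ (w : ℝ) ^ (1 / (B : ℝ)) := by positivity
  rcases le_total y y1 with h | h
  · refine (hinit y hwy h).trans ?_
    have h1 : C * (A / Real.log 2) ≤ 1 + C * (A / Real.log 2) * Real.exp 210 := by nlinarith
    exact mul_le_mul_of_nonneg_right h1 hw0
  · have hadd : SJ D w y = SJ D w y1 + SJ D y1 y := by
      rw [SJ_def', SJ_def', SJ_def']
      have e : PI w y = PI w y1 ∪ PI y1 y := by
        ext p
        rw [mem_union, mem_PI, mem_PI, mem_PI]
        constructor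
        · rintro ⟨a1, a2, a3⟩
          rcases Nat.lt_or_ge y1 p with h3 | h3
          · exact Or.inr ⟨h3, a2, a3⟩
          · exact Or.inl ⟨a1, h3, a3⟩
        · rintro (⟨a1, a2, a3⟩ | ⟨a1, a2, a3⟩)
          · exact ⟨a1, a2.trans h, a3⟩
          · exact ⟨by omega, a2, a3⟩
      rw [e, sum_union]
      rw [Finset.disjoint_left]
      intro p h1 h2
      rw [mem_PI] at h1 h2
      omega
    have htail := hn₁ y1 (by omega) D hsq (by
      have h1 : T ≤ y1 := by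
        have h2 := Nat.le_ceil T
        have h3 : (⌈T⌉₊ : ℝ) ≤ y1 := by exact_mod_cast (by omega : ⌈T⌉₊ ≤ y1)
        linarith
      have h2 : (4 * (w : ℝ)) ^ (1 / (B : ℝ)) ≤ Real.log y1 := by
        have := Real.log_le_log (by linarith : 0 < T) h1
        rwa [hT, Real.log_exp] at this
      calc (4 * D.natAbs : ℝ) ≤ 4 * (w : ℝ) := by
            have : (D.natAbs : ℝ) ≤ w := by exact_mod_cast hD
            linarith
        _ = ((4 * (w : ℝ)) ^ (1 / (B : ℝ))) ^ B := by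
            rw [← Real.rpow_natCast, ← Real.rpow_mul (by positivity), one_div,
              inv_mul_cancel₀ hB0.ne', Real.rpow_one]
        _ ≤ (Real.log y1) ^ B := pow_le_pow_left₀ (by positivity) h2 B) y h
    have h5 : 140 / Real.log ((y1 : ℝ) - 1) ≤ 210 := by
      have h6 : (2 : ℝ) ≤ (y1 : ℝ) - 1 := by
        have : ((3 : ℕ) : ℝ) ≤ y1 := by exact_mod_cast (by omega : 3 ≤ y1)
        push_cast at this
        linarith
      have h7 := Real.log_le_log (by norm_num) h6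
      have h8 := Real.log_two_gt_d9
      rw [div_le_iff₀ (by linarith)]
      nlinarith
    have h9 : -SJ D y1 y ≤ 210 := by
      have := neg_le_of_abs_le (htail.trans h5)
      rw [SJ_def']
      unfold PI
      linarith
    rw [hadd, neg_add, Real.exp_add]
    calc Real.exp (-SJ D w y1) * Real.exp (-SJ D y1 y)
        ≤ (C * (A / Real.log 2) * (w : ℝ) ^ (1 / (B : ℝ))) * Real.exp 210 :=
          mul_le_mul (hinit y1 hwy1 le_rfl) (Real.exp_le_exp.2 h9) (Real.exp_pos _).le (by positivity)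
      _ ≤ (1 + C * (A / Real.log 2) * Real.exp 210) * (w : ℝ) ^ (1 / (B : ℝ)) := by
          nlinarith

end Pool.Agent.Q37.FZ
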