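import Mathlib

set_option autoImplicit false
set_option maxHeartbeats 1000000

/-! # The number of roots modulo `p` of two quadratic polynomials -/

namespace Pool.Agent.Q37.FZ

open Finset

/-- the condition at `p` -/
def QQ (w : ℕ) (Mo r : ℤ) (L : ℕ) (p k : ℕ) : Prop :=
  w < p ∧ ((p : ℤ) ∣ 4 * (Mo * k + r) ^ 2 + 2 - L ∨
    (p : ℤ) ∣ 4 * (Mo * k + r) ^ 2 + 2 * (Mo * k + r) + 2 - L)

lemma card_range_zmod {p : ℕ} [NeZero p] (P : ZMod p → Prop) [DecidablePred P] :
    ((range p).filter (fun k : ℕ => P (k : ZMod p))).card = (univ.filter P).card := by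
  apply Finset.card_bij (fun (k : ℕ) _ => (k : ZMod p))
  · intro k hk
    rw [mem_filter] at hk ⊢
    exact ⟨mem_univ _, hk.2⟩
  · intro k hk k' hk' h
    rw [mem_filter, mem_range] at hk hk'
    rw [ZMod.natCast_eq_natCast_iff'] at h
    rwa [Nat.mod_eq_of_lt hk.1, Nat.mod_eq_of_lt hk'.1] at h
  · intro x hx
    rw [mem_filter] at hx
    refine ⟨x.val, ?_, ZMod.natCast_zmod_val x⟩
    rw [mem_filter, mem_range, ZMod.natCast_zmod_val]
    exact ⟨ZMod.val_lt x, hx.2⟩

lemma card_affine {F : Type*} [Field F] [Fintype F] (c d : F) (hc : c ≠ 0)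
    (P : F → Prop) [DecidablePred P] :
    (univ.filter (fun x => P (c * x + d))).card = (univ.filter P).card := by
  apply Finset.card_bij (fun x _ => c * x + d)
  · intro x hx
    rw [mem_filter] at hx ⊢
    exact ⟨mem_univ _, hx.2⟩
  · intro x _ y _ h
    have := add_right_cancel h
    exact mul_left_cancel₀ hc this
  · intro y hy
    rw [mem_filter] at hy
    refine ⟨(y - d) / c, ?_, ?_⟩
    · rw [mem_filter]
      refine ⟨mem_univ _, ?_⟩
      rw [mul_div_cancel₀ _ hc]
      simpa using hy.2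
    · rw [mul_div_cancel₀ _ hc]; ring

lemma sq_card (p : ℕ) [Fact p.Prime] (hp : p ≠ 2) (a : ℤ) :
    ((univ.filter (fun x : ZMod p => x ^ 2 = (a : ZMod p))).card : ℤ) = jacobiSym a p + 1 := by
  have h := legendreSym.card_sqrts p hp a
  rw [← jacobiSym.legendreSym.to_jacobiSym]
  rw [← h]
  congr 2
  ext x
  simp

theorem nu_eq {w L p : ℕ} (hp : p.Prime) (hw : 4 * L + 8 ≤ w) (hwp : w < p) (hL : L ≠ 2) (Mo r : ℤ)
    (hM : ¬ (p : ℤ) ∣ Mo) [DecidablePred (fun k => QQ w Mo r L p k)] :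
    (((range p).filter (fun k => QQ w Mo r L p k)).card : ℤ) =
      2 + jacobiSym ((L : ℤ) - 2) p + jacobiSym (4 * (L : ℤ) - 7) p := by
  classical
  haveI : Fact p.Prime := ⟨hp⟩
  have hp2 : p ≠ 2 := by omega
  set P1 : ZMod p → Prop := fun u => 4 * u ^ 2 + 2 - (L : ZMod p) = 0 with hP1
  set P2 : ZMod p → Prop := fun u => 4 * u ^ 2 + 2 * u + 2 - (L : ZMod p) = 0 with hP2
  have two_ne : (2 : ZMod p) ≠ 0 := by
    intro h
    have h1 : ((2 : ℕ) : ZMod p) = 0 := by exact_mod_cast h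
    rw [ZMod.natCast_eq_zero_iff] at h1
    have := Nat.le_of_dvd (by norm_num) h1
    omega
  have four_ne : (4 : ZMod p) ≠ 0 := by
    have : (4 : ZMod p) = 2 * 2 := by norm_num
    rw [this]; exact mul_ne_zero two_ne two_ne
  have hMo : (Mo : ZMod p) ≠ 0 := by
    intro h
    rw [ZMod.intCast_zmod_eq_zero_iff_dvd] at h
    exact hM h
  have e1 : ((range p).filter (fun k => QQ w Mo r L p k)).card =
      ((range p).filter (fun k : ℕ => (fun x : ZMod p => P1 ((Mo : ZMod p) * x + (r : ZMod p)) ∨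
        P2 ((Mo : ZMod p) * x + (r : ZMod p))) (k : ZMod p))).card := by
    congr 1
    apply filter_congr
    intro k _
    unfold QQ
    rw [← ZMod.intCast_zmod_eq_zero_iff_dvd, ← ZMod.intCast_zmod_eq_zero_iff_dvd]
    simp only [hP1, hP2]
    push_cast
    tauto
  have e2 : (univ.filter (fun x : ZMod p => P1 ((Mo : ZMod p) * x + (r : ZMod p)) ∨
        P2 ((Mo : ZMod p) * x + (r : ZMod p)))).card = (univ.filter (fun u => P1 u ∨ P2 u)).card :=
    card_affine (Mo : ZMod p) (r : ZMod p) hMo (fun u => P1 u ∨ P2 u)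
  have hdisj : Disjoint (univ.filter P1) (univ.filter P2) := by
    rw [Finset.disjoint_left]
    intro u h1 h2
    rw [mem_filter] at h1 h2
    have h3 : P1 u := h1.2
    have h4 : P2 u := h2.2
    simp only [hP1, hP2] at h3 h4
    have h5 : (2 : ZMod p) * u = 0 := by linear_combination h4 - h3
    have h6 : u = 0 := by
      rcases mul_eq_zero.1 h5 with h | h
      · exact absurd h two_ne
      · exact h
    rw [h6] at h3
    have h7 : ((((L : ℤ) - 2 : ℤ)) : ZMod p) = 0 := by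
      push_cast
      linear_combination -h3
    rw [ZMod.intCast_zmod_eq_zero_iff_dvd] at h7
    have h8 : ((L : ℤ) - 2).natAbs < p := by omega
    have h9 := Int.eq_zero_of_dvd_of_natAbs_lt_natAbs h7 (by simpa using h8)
    omega
  have c1 : ((univ.filter P1).card : ℤ) = jacobiSym ((L : ℤ) - 2) p + 1 := by
    rw [← sq_card p hp2]
    have h := card_affine (2 : ZMod p) 0 two_ne (fun x : ZMod p => x ^ 2 = (((L : ℤ) - 2 : ℤ) : ZMod p))
    rw [← h]
    congr 2
    apply filter_congr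
    intro u _
    simp only [hP1]
    push_cast
    constructor
    · intro h; linear_combination h
    · intro h; linear_combination h
  have c2 : ((univ.filter P2).card : ℤ) = jacobiSym (4 * (L : ℤ) - 7) p + 1 := by
    rw [← sq_card p hp2]
    have h := card_affine (4 : ZMod p) 1 four_ne (fun x : ZMod p => x ^ 2 = ((4 * (L : ℤ) - 7 : ℤ) : ZMod p))
    rw [← h]
    congr 2
    apply filter_congr
    intro u _
    simp only [hP2]
    push_cast
    constructor
    · intro h; linear_combination 4 * h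
    · intro h
      have h2 : (4 : ZMod p) * (4 * u ^ 2 + 2 * u + 2 - (L : ZMod p)) = 0 := by linear_combination h
      rcases mul_eq_zero.1 h2 with h3 | h3
      · exact absurd h3 four_ne
      · exact h3
  have e3 := card_range_zmod (p := p) (fun x : ZMod p => P1 ((Mo : ZMod p) * x + (r : ZMod p)) ∨
    P2 ((Mo : ZMod p) * x + (r : ZMod p)))
  rw [e1]
  have e4 : ((range p).filter (fun k : ℕ => (fun x : ZMod p => P1 ((Mo : ZMod p) * x + (r : ZMod p)) ∨
        P2 ((Mo : ZMod p) * x + (r : ZMod p))) (k : ZMod p))).card = (univ.filter P1).card + (univ.filter P2).card := by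
    rw [← card_union_of_disjoint hdisj, ← Finset.filter_or, ← e2, ← e3]
  rw [e4]
  push_cast
  rw [c1, c2]
  ring

lemma QQ_per (w : ℕ) (Mo r : ℤ) (L : ℕ) (p k : ℕ) : QQ w Mo r L p k ↔ QQ w Mo r L p (k % p) := by
  unfold QQ
  apply and_congr_right
  intro _
  have h : (k : ℤ) = p * ((k / p : ℕ) : ℤ) + ((k % p : ℕ) : ℤ) := by
    have := Nat.div_add_mod k p
    exact_mod_cast this.symm
  apply or_congr
  · have e : 4 * (Mo * (k : ℤ) + r) ^ 2 + 2 - (L : ℤ) = (4 * (Mo * ((k % p : ℕ) : ℤ) + r) ^ 2 + 2 - L) +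
        (p : ℤ) * (4 * Mo * ((k / p : ℕ) : ℤ) * (Mo * k + Mo * ((k % p : ℕ) : ℤ) + 2 * r)) := by
      rw [h]; ring_nf
    rw [e]
    exact (dvd_add_left (Dvd.intro _ rfl))
  · have e : 4 * (Mo * (k : ℤ) + r) ^ 2 + 2 * (Mo * (k : ℤ) + r) + 2 - (L : ℤ) =
        (4 * (Mo * ((k % p : ℕ) : ℤ) + r) ^ 2 + 2 * (Mo * ((k % p : ℕ) : ℤ) + r) + 2 - L) +
        (p : ℤ) * (4 * Mo * ((k / p : ℕ) : ℤ) * (Mo * k + Mo * ((k % p : ℕ) : ℤ) + 2 * r) +
          2 * Mo * ((k / p : ℕ) : ℤ)) := by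
      rw [h]; ring_nf
    rw [e]
    exact (dvd_add_left (Dvd.intro _ rfl))

end Pool.Agent.Q37.FZ
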