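import Pool.Agent.Q37.FZ.Prod
import Pool.Agent.Q37.FZ.Roots
import Pool.Agent.Q55.GcdSmall

set_option autoImplicit false
set_option maxHeartbeats 1000000

/-! # The sieve bound for the two quadratic polynomials, uniform in the constant term -/

namespace Pool.Agent.Q37.FZ

open Finset Filter Pool.Agent.H373R2.T7 Pool.Agent.W123.RP Pool.Agent.W468.ConjF

open Classical in
lemma nuB_QQ {w L : ℕ} (hw : 4 * L + 8 ≤ w) (hL : L ≠ 2) (Mo r : ℤ)
    (hM : ∀ q : ℕ, q.Prime → w < q → ¬ (q : ℤ) ∣ Mo) (p : ℕ) (hp : p.Prime) :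
    (nuB (QQ w Mo r L) p : ℝ) = if w < p then
      2 + (jacobiSym ((L : ℤ) - 2) p : ℝ) + (jacobiSym (4 * (L : ℤ) - 7) p : ℝ) else 0 := by
  split_ifs with h
  · unfold nuB
    have h1 := nu_eq hp hw h hL Mo r (hM p hp h)
    exact_mod_cast h1
  · rw [Nat.cast_eq_zero]
    unfold nuB
    rw [card_eq_zero, filter_eq_empty_iff]
    intro k _ hk
    exact h hk.1

lemma perB_QQ {w L : ℕ} (hw : 4 * L + 8 ≤ w) (hL : L ≠ 2) (Mo r : ℤ)
    (hM : ∀ q : ℕ, q.Prime → w < q → ¬ (q : ℤ) ∣ Mo) : PerB (QQ w Mo r L) 4 := by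
  refine ⟨fun p n => QQ_per w Mo r L p n, fun p hp => ?_⟩
  have h := nuB_QQ hw hL Mo r hM p hp
  have h1 : (nuB (QQ w Mo r L) p : ℝ) ≤ 4 := by
    rw [h]
    split_ifs
    · have h2 := (abs_le.1 (js_abs ((L : ℤ) - 2) p)).2
      have h3 := (abs_le.1 (js_abs (4 * (L : ℤ) - 7) p)).2
      linarith
    · norm_num
  exact_mod_cast h1

theorem prod_bound (B : ℕ) (hB : 1 ≤ B) : ∃ C : ℝ, 1 ≤ C ∧ ∀ (w y L : ℕ) (Mo r : ℤ), 4 * L + 8 ≤ w →
    w ≤ y → L ≠ 2 → (∀ q : ℕ, q.Prime → w < q → ¬ (q : ℤ) ∣ Mo) →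
    ∏ p ∈ pz y, (1 - (nuB (QQ w Mo r L) p : ℝ) / p) ≤
      C * ((Real.log w / Real.log y) ^ 2 * ((w : ℝ) ^ (1 / (B : ℝ))) ^ 2) := by
  obtain ⟨C₁, hC₁, h₁⟩ := mertens
  obtain ⟨C₂, hC₂, h₂⟩ := twisted B hB
  refine ⟨C₁ ^ 2 * C₂ ^ 2, ?_, ?_⟩
  · have a1 : 1 ≤ C₁ ^ 2 := one_le_pow₀ hC₁
    have a2 : 1 ≤ C₂ ^ 2 := one_le_pow₀ hC₂
    nlinarith
  intro w y L Mo r hw hwy hL hM
  rw [prod_split hwy]
  have e1 : ∏ p ∈ pz w, (1 - (nuB (QQ w Mo r L) p : ℝ) / p) = 1 := by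
    apply Finset.prod_eq_one
    intro p hp
    rw [mem_pz] at hp
    rw [nuB_QQ hw hL Mo r hM p hp.2, if_neg (by omega)]
    simp
  rw [e1, one_mul]
  have e2 : ∏ p ∈ PI w y, (1 - (nuB (QQ w Mo r L) p : ℝ) / p) ≤
      Real.exp (-∑ p ∈ PI w y, 1 / (p : ℝ)) ^ 2 *
        (Real.exp (-SJ ((L : ℤ) - 2) w y) * Real.exp (-SJ (4 * (L : ℤ) - 7) w y)) := by
    have e3 : Real.exp (-∑ p ∈ PI w y, 1 / (p : ℝ)) ^ 2 *
        (Real.exp (-SJ ((L : ℤ) - 2) w y) * Real.exp (-SJ (4 * (L : ℤ) - 7) w y)) =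
        ∏ p ∈ PI w y, Real.exp (-((nuB (QQ w Mo r L) p : ℝ) / p)) := by
      rw [← Real.exp_sum, ← Real.exp_add, ← Real.exp_nat_mul, ← Real.exp_add]
      congr 1
      rw [SJ_def', SJ_def', Finset.sum_neg_distrib]
      have e4 : ∑ p ∈ PI w y, (nuB (QQ w Mo r L) p : ℝ) / p =
          2 * ∑ p ∈ PI w y, 1 / (p : ℝ) + (∑ p ∈ PI w y, (jacobiSym ((L : ℤ) - 2) p : ℝ) / p +
            ∑ p ∈ PI w y, (jacobiSym (4 * (L : ℤ) - 7) p : ℝ) / p) := by
        rw [Finset.mul_sum, ← Finset.sum_add_distrib, ← Finset.sum_add_distrib]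
        apply Finset.sum_congr rfl
        intro p hp
        rw [mem_PI] at hp
        rw [nuB_QQ hw hL Mo r hM p hp.2.2, if_pos hp.1]
        ring
      rw [e4]
      push_cast
      ring
    rw [e3]
    apply Finset.prod_le_prod
    · intro p hp
      rw [mem_PI] at hp
      exact one_sub_nonneg _ p hp.2.2
    · intro p _
      have := Real.add_one_le_exp (-((nuB (QQ w Mo r L) p : ℝ) / p))
      linarith
  refine e2.trans ?_
  have b1 := (h₁ w y (by omega) hwy).1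
  have b2 := h₂ ((L : ℤ) - 2) w y (by omega) hwy (by omega)
  have b3 := h₂ (4 * (L : ℤ) - 7) w y (by omega) hwy (by omega)
  have hlw : 0 ≤ Real.log w := Real.log_natCast_nonneg _
  have hly : 0 ≤ Real.log y := Real.log_natCast_nonneg _
  calc Real.exp (-∑ p ∈ PI w y, 1 / (p : ℝ)) ^ 2 *
        (Real.exp (-SJ ((L : ℤ) - 2) w y) * Real.exp (-SJ (4 * (L : ℤ) - 7) w y))
      ≤ (C₁ * (Real.log w / Real.log y)) ^ 2 *
        ((C₂ * (w : ℝ) ^ (1 / (B : ℝ))) * (C₂ * (w : ℝ) ^ (1 / (B : ℝ)))) := by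
        gcongr
    _ = _ := by ring

open Classical in
/-- sieve bound for the two polynomials -/
theorem rough_quad (ε : ℝ) (hε : 0 < ε) : ∃ r : ℕ, 3 ≤ r ∧ ∃ C : ℝ, 1 ≤ C ∧ ∃ K₀ : ℕ,
    ∀ (K w L : ℕ) (Mo r0 : ℤ), K₀ ≤ K → 4 * L + 8 ≤ w → L ≠ 2 →
    (∀ q : ℕ, q.Prime → w < q → ¬ (q : ℤ) ∣ Mo) →
    (((Icc 1 K).filter (fun k => ∀ p ∈ pz ⌊(K : ℝ) ^ (1 / (r : ℝ))⌋₊, ¬ QQ w Mo r0 L p k)).card : ℝ) ≤
      C * (K * ((w : ℝ) ^ ε / Real.log K ^ 2)) := by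
  obtain ⟨K1, x0, hK1, hfund⟩ := sys_fund 4 (by norm_num) 1 one_pos
  obtain ⟨B, hBε⟩ := exists_nat_ge (4 / ε)
  have hBpos : (0 : ℝ) < B := lt_of_lt_of_le (by positivity) hBε
  have hB : 1 ≤ B := by
    have : 0 < B := by exact_mod_cast hBpos
    omega
  obtain ⟨Cv, hCv, hV⟩ := prod_bound B hB
  obtain ⟨r, hr⟩ : ∃ r : ℕ, r = max K1 3 := ⟨_, rfl⟩
  have hr3 : 3 ≤ r := hr ▸ le_max_right _ _
  have hr2 : 2 ≤ r := by omega
  have hrK : K1 ≤ r := hr ▸ le_max_left _ _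
  have hrpos : (0 : ℝ) < r := by exact_mod_cast (by omega : 0 < r)
  refine ⟨r, hr3, ?_⟩
  have hXr : Tendsto (fun X : ℕ => (X : ℝ)) atTop atTop := tendsto_natCast_atTop_atTop
  have hlogt : Tendsto (fun X : ℕ => Real.log (X : ℝ)) atTop atTop :=
    Real.tendsto_log_atTop.comp hXr
  have hpow : Tendsto (fun X : ℕ => (X : ℝ) ^ (1 / (2 * r : ℝ))) atTop atTop :=
    (tendsto_rpow_atTop (by positivity)).comp hXr
  have hlogeps : ∀ᶠ X : ℕ in atTop, Real.log X ^ 2 ≤ (X : ℝ) ^ (ε / (2 * r)) := by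
    have h := ((isLittleO_log_rpow_rpow_atTop ((2 : ℕ) : ℝ) (show (0 : ℝ) < ε / (2 * r) by positivity)).comp_tendsto
      tendsto_natCast_atTop_atTop).bound (by norm_num : (0 : ℝ) < 1)
    filter_upwards [h, eventually_ge_atTop 1] with X hX hX1
    have hX1' : (1 : ℝ) ≤ X := by exact_mod_cast hX1
    have hl := Real.log_nonneg hX1'
    simp only [Function.comp_def, Real.rpow_natCast, one_mul] at hX
    rw [Real.norm_of_nonneg (by positivity), Real.norm_of_nonneg (by positivity)] at hX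
    exact hX
  obtain ⟨X₀, hX₀⟩ := eventually_atTop.1 (((hlogt.eventually_ge_atTop 2).and
    (hpow.eventually_ge_atTop ((x0 : ℝ) + 2))).and (((Pool.Agent.Q55.GcdSieve.log_pow_le 4).and
      hlogeps).and (eventually_ge_atTop 3)))
  refine ⟨2 * Cv * (2 * r) ^ 2 * B ^ 2 + 2, ?_, X₀, ?_⟩
  · have : 0 ≤ 2 * Cv * (2 * r) ^ 2 * (B : ℝ) ^ 2 := by positivity
    linarith
  intro K w L Mo r0 hK hw hL hM
  obtain ⟨⟨hl2, hxp⟩, ⟨hl4, hle⟩, hX3⟩ := hX₀ K hK
  have hKr : (3 : ℝ) ≤ K := by exact_mod_cast hX3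
  have hK0 : (0 : ℝ) < K := by linarith
  have hL0 : 0 < Real.log K := by linarith
  have hx00 : (0 : ℝ) ≤ x0 := Nat.cast_nonneg _
  obtain ⟨y, hy⟩ : ∃ y : ℕ, y = ⌊(K : ℝ) ^ (1 / (r : ℝ))⌋₊ := ⟨_, rfl⟩
  obtain ⟨hy1, hy2, -, hy4⟩ := Pool.Agent.W123.RU.level_low r hr2 K (by omega) (by linarith)
  rw [← hy] at hy1 hy2 hy4 ⊢
  have hwr : (8 : ℝ) ≤ w := by exact_mod_cast (by omega : 8 ≤ w)
  have hlw0 : 0 < Real.log w := Real.log_pos (by linarith)
  have hcK : (((Icc 1 K).filter (fun k => ∀ p ∈ pz y, ¬ QQ w Mo r0 L p k)).card : ℝ) ≤ K := by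
    have := card_filter_le (Icc 1 K) (fun k => ∀ p ∈ pz y, ¬ QQ w Mo r0 L p k)
    rw [Nat.card_Icc, Nat.add_sub_cancel] at this
    exact_mod_cast this
  have hwe : 1 ≤ (w : ℝ) ^ ε := Real.one_le_rpow (by linarith) hε.le
  have hbase : 0 < K * ((w : ℝ) ^ ε / Real.log K ^ 2) := by positivity
  by_cases hwy : w ≤ y
  · have hyx0 : x0 ≤ y := by
      have : (x0 : ℝ) ≤ y := by linarith
      exact_mod_cast this
    have hyr : (y : ℝ) ^ r ≤ K := by
      have h1 : (y : ℝ) ≤ (K : ℝ) ^ (1 / (r : ℝ)) := by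
        rw [hy]
        exact Nat.floor_le (by positivity)
      calc (y : ℝ) ^ r ≤ ((K : ℝ) ^ (1 / (r : ℝ))) ^ r := pow_le_pow_left₀ (Nat.cast_nonneg _) h1 r
        _ = K := by
          rw [← Real.rpow_natCast, ← Real.rpow_mul (by positivity), one_div,
            inv_mul_cancel₀ hrpos.ne', Real.rpow_one]
    have hyK : y ^ K1 ≤ K := by
      have h1 : y ^ K1 ≤ y ^ r := Nat.pow_le_pow_right (by omega) hrK
      have h2 : y ^ r ≤ K := by exact_mod_cast hyr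
      omega
    have hf := (abs_le.1 (hfund K y hyx0 hyK (QQ w Mo r0 L) (perB_QQ hw hL Mo r0 hM) K)).2
    have hp := hV w y L Mo r0 hw hwy hL hM
    have hly : 0 < Real.log y := by
      have : 0 < Real.log K / (2 * r) := by positivity
      linarith
    have h5 : (Real.log w / Real.log y) ^ 2 * ((w : ℝ) ^ (1 / (B : ℝ))) ^ 2 ≤
        (2 * r) ^ 2 * B ^ 2 * ((w : ℝ) ^ ε / Real.log K ^ 2) := by
      have h6 : Real.log w ≤ B * (w : ℝ) ^ (1 / (B : ℝ)) := by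
        have := Real.log_le_rpow_div (x := (w : ℝ)) (by linarith) (show 0 < 1 / (B : ℝ) by positivity)
        calc Real.log w ≤ (w : ℝ) ^ (1 / (B : ℝ)) / (1 / (B : ℝ)) := this
          _ = _ := by field_simp
      have h7 : Real.log w / Real.log y ≤ 2 * r * (B * (w : ℝ) ^ (1 / (B : ℝ))) / Real.log K := by
        calc Real.log w / Real.log y ≤ (B * (w : ℝ) ^ (1 / (B : ℝ))) / (Real.log K / (2 * r)) := by
              gcongr
          _ = _ := by field_simp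
      have h8 : (w : ℝ) ^ (1 / (B : ℝ)) ^ 1 = (w : ℝ) ^ (1 / (B : ℝ)) := by simp
      have h9 : ((w : ℝ) ^ (1 / (B : ℝ))) ^ 4 ≤ (w : ℝ) ^ ε := by
        rw [← Real.rpow_natCast, ← Real.rpow_mul (by linarith)]
        apply Real.rpow_le_rpow_of_exponent_le (by linarith)
        push_cast
        rw [one_div, inv_mul_le_iff₀ hBpos]
        have h10 := (div_le_iff₀ hε).1 hBε
        linarith
      calc (Real.log w / Real.log y) ^ 2 * ((w : ℝ) ^ (1 / (B : ℝ))) ^ 2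
          ≤ (2 * r * (B * (w : ℝ) ^ (1 / (B : ℝ))) / Real.log K) ^ 2 * ((w : ℝ) ^ (1 / (B : ℝ))) ^ 2 := by
            gcongr
        _ = (2 * r) ^ 2 * B ^ 2 * (((w : ℝ) ^ (1 / (B : ℝ))) ^ 4 / Real.log K ^ 2) := by
            field_simp
        _ ≤ _ := by gcongr
    have h6 : √(K : ℝ) ≤ K * ((w : ℝ) ^ ε / Real.log K ^ 2) := by
      have h8 : √(K : ℝ) ≤ K * (1 / Real.log K) ^ 2 := by
        rw [one_div_pow, mul_one_div, Real.sqrt_le_left (by positivity), div_pow, ← pow_mul,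
          le_div_iff₀ (by positivity)]
        calc (K : ℝ) * Real.log K ^ (2 * 2) = (K : ℝ) * Real.log K ^ 4 := by norm_num
          _ ≤ (K : ℝ) * K := mul_le_mul_of_nonneg_left hl4 (by positivity)
          _ = (K : ℝ) ^ 2 := by ring
      refine h8.trans ?_
      apply mul_le_mul_of_nonneg_left _ hK0.le
      rw [one_div_pow]
      apply div_le_div_of_nonneg_right hwe (by positivity)
    have h9 : 2 * ((K : ℝ) * ∏ p ∈ pz y, (1 - (nuB (QQ w Mo r0 L) p : ℝ) / p)) ≤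
        2 * Cv * (2 * r) ^ 2 * B ^ 2 * (K * ((w : ℝ) ^ ε / Real.log K ^ 2)) := by
      calc 2 * ((K : ℝ) * ∏ p ∈ pz y, (1 - (nuB (QQ w Mo r0 L) p : ℝ) / p)) ≤
          2 * (K * (Cv * ((2 * r) ^ 2 * B ^ 2 * ((w : ℝ) ^ ε / Real.log K ^ 2)))) := by
            have := hp.trans (mul_le_mul_of_nonneg_left h5 (by linarith : (0 : ℝ) ≤ Cv))
            gcongr
        _ = _ := by ring
    have h10 : (2 * Cv * (2 * r) ^ 2 * B ^ 2 + 2) * (K * ((w : ℝ) ^ ε / Real.log K ^ 2)) =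
        2 * Cv * (2 * r) ^ 2 * B ^ 2 * (K * ((w : ℝ) ^ ε / Real.log K ^ 2)) +
          2 * (K * ((w : ℝ) ^ ε / Real.log K ^ 2)) := by ring
    rw [h10]
    linarith
  · have h1 : Real.log K ^ 2 ≤ (w : ℝ) ^ ε := by
      refine hle.trans ?_
      have h2 : (K : ℝ) ^ (1 / (2 * r : ℝ)) ≤ w := by
        have : (y : ℝ) ≤ w := by exact_mod_cast (by omega : y ≤ w)
        linarith
      calc (K : ℝ) ^ (ε / (2 * r)) = ((K : ℝ) ^ (1 / (2 * r : ℝ))) ^ ε := by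
            rw [← Real.rpow_mul hK0.le]; congr 1; ring
        _ ≤ (w : ℝ) ^ ε := Real.rpow_le_rpow (by positivity) h2 hε.le
    have h2 : (K : ℝ) ≤ K * ((w : ℝ) ^ ε / Real.log K ^ 2) := by
      have : 1 ≤ (w : ℝ) ^ ε / Real.log K ^ 2 := by
        rw [le_div_iff₀ (by positivity), one_mul]; exact h1
      nlinarith
    have h3 : 0 ≤ 2 * Cv * (2 * r) ^ 2 * (B : ℝ) ^ 2 * (K * ((w : ℝ) ^ ε / Real.log K ^ 2)) := by positivity
    nlinarith

open Classical in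
/-- the integers of a progression for which both values have no small prime factor -/
theorem rough_cls (ε : ℝ) (hε : 0 < ε) : ∃ C : ℝ, 1 ≤ C ∧ ∃ X₀ : ℕ, ∀ X M w L r₀ : ℕ, X₀ ≤ X → 1 ≤ M →
    M * M ≤ X → 4 * L + 8 ≤ w → L ≠ 2 → (∀ p : ℕ, p.Prime → w < p → ¬ p ∣ M) →
    (((Icc 1 X).filter (fun m : ℕ => m % M = r₀ ∧ ∀ p : ℕ, p.Prime → w < p → p * p ≤ X →
      ¬ (p : ℤ) ∣ 4 * (m : ℤ) ^ 2 + 2 - L ∧ ¬ (p : ℤ) ∣ 4 * (m : ℤ) ^ 2 + 2 * m + 2 - L)).card : ℝ) ≤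
      C * (X / M * ((w : ℝ) ^ ε / Real.log X ^ 2)) := by
  obtain ⟨r, hr3, C, hC, K₀, hK₀⟩ := rough_quad ε hε
  refine ⟨8 * C, by linarith, (K₀ + 3) * (K₀ + 3), ?_⟩
  intro X M w L r₀ hX hM1 hMX hw hL hM
  obtain ⟨K, hK⟩ : ∃ K : ℕ, K = X / M + 1 := ⟨_, rfl⟩
  have hKM : X < K * M := by
    have h1 := Nat.div_add_mod X M
    have h2 := Nat.mod_lt X (by omega : 0 < M)
    rw [hK]
    nlinarith
  have hXK : X < K * K := by
    by_contra hcon
    push Not at hcon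
    have h1 : K ≤ M := by
      by_contra h2
      push Not at h2
      nlinarith
    nlinarith [hKM, h1, hMX]
  have hKK₀ : K₀ ≤ K := by
    by_contra hcon
    push Not at hcon
    nlinarith
  have hX9 : 9 ≤ X := by nlinarith
  have hKX : K ≤ X + 1 := by
    rw [hK]
    exact Nat.add_le_add_right (Nat.div_le_self X M) 1
  have hMr : (1 : ℝ) ≤ M := by exact_mod_cast hM1
  have hKle : (K : ℝ) ≤ 2 * (X / M) := by
    have h1 : ((X / M : ℕ) : ℝ) ≤ (X : ℝ) / M := Nat.cast_div_le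
    have h2 : (1 : ℝ) ≤ (X : ℝ) / M := by
      rw [le_div_iff₀ (by linarith), one_mul]
      exact_mod_cast (by nlinarith : M ≤ X)
    rw [hK]
    push_cast
    linarith
  have hXr : (9 : ℝ) ≤ X := by exact_mod_cast hX9
  have hlX : 0 < Real.log X := Real.log_pos (by linarith)
  have hlK : Real.log X / 2 ≤ Real.log K := by
    have h1 : Real.log X ≤ Real.log ((K : ℝ) * K) := by
      apply Real.log_le_log (by linarith)
      have : X ≤ K * K := hXK.le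
      exact_mod_cast this
    have hKpos : (K : ℝ) ≠ 0 := by
      have : 0 < K := by rw [hK]; exact Nat.succ_pos _
      exact_mod_cast this.ne'
    rw [Real.log_mul hKpos hKpos] at h1
    linarith
  have hmain := hK₀ K w L (M : ℤ) ((r₀ : ℤ) - M) hKK₀ hw hL (by
    intro q hq hwq hd
    exact hM q hq hwq (by exact_mod_cast hd))
  have hcard : ((Icc 1 X).filter (fun m : ℕ => m % M = r₀ ∧ ∀ p : ℕ, p.Prime → w < p → p * p ≤ X →
      ¬ (p : ℤ) ∣ 4 * (m : ℤ) ^ 2 + 2 - L ∧ ¬ (p : ℤ) ∣ 4 * (m : ℤ) ^ 2 + 2 * m + 2 - L)).card ≤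
      ((Icc 1 K).filter (fun k => ∀ p ∈ pz ⌊(K : ℝ) ^ (1 / (r : ℝ))⌋₊,
        ¬ QQ w (M : ℤ) ((r₀ : ℤ) - M) L p k)).card := by
    apply card_le_card_of_injOn (fun m => m / M + 1)
    · intro m hm
      rw [mem_coe, mem_filter, mem_Icc] at hm
      obtain ⟨⟨hm1, hm2⟩, hm3, hm4⟩ := hm
      have h2 : m / M ≤ X / M := Nat.div_le_div_right hm2
      show m / M + 1 ∈ (_ : Set ℕ)
      rw [mem_coe, mem_filter, mem_Icc]
      refine ⟨⟨Nat.le_add_left _ _, by rw [hK]; exact Nat.add_le_add_right h2 1⟩, ?_⟩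
      intro p hp hq
      obtain ⟨hpy, hpp⟩ := mem_pz.1 hp
      obtain ⟨hwp, hdv⟩ := hq
      have hp3 : p ^ 3 ≤ K := by
        have hrpos : (0 : ℝ) < r := by exact_mod_cast (by omega : 0 < r)
        have h4 : (p : ℝ) ≤ (K : ℝ) ^ (1 / (r : ℝ)) := by
          have := Nat.floor_le (show (0 : ℝ) ≤ (K : ℝ) ^ (1 / (r : ℝ)) by positivity)
          have h4 : (p : ℝ) ≤ (⌊(K : ℝ) ^ (1 / (r : ℝ))⌋₊ : ℝ) := by exact_mod_cast hpy
          linarith
        have h5 : (p : ℝ) ^ r ≤ K := by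
          calc (p : ℝ) ^ r ≤ ((K : ℝ) ^ (1 / (r : ℝ))) ^ r := pow_le_pow_left₀ (Nat.cast_nonneg _) h4 r
            _ = K := by
              rw [← Real.rpow_natCast, ← Real.rpow_mul (by positivity), one_div,
                inv_mul_cancel₀ hrpos.ne', Real.rpow_one]
        have h6 : p ^ r ≤ K := by exact_mod_cast h5
        exact (Nat.pow_le_pow_right hpp.pos hr3).trans h6
      have hpX : p * p ≤ X := by
        have h7 := hpp.two_le
        have h8 : 2 * (p * p) ≤ p ^ 3 := by nlinarith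
        omega
      have hno := hm4 p hpp hwp hpX
      have e : (M : ℤ) * ((m / M + 1 : ℕ) : ℤ) + ((r₀ : ℤ) - M) = (m : ℤ) := by
        have h10 : ((M * (m / M) + m % M : ℕ) : ℤ) = m := by rw [Nat.div_add_mod]
        rw [hm3] at h10
        push_cast at h10 ⊢
        linear_combination h10
      rw [e] at hdv
      rcases hdv with h | h
      · exact hno.1 h
      · exact hno.2 h
    · intro m hm m' hm' h
      rw [mem_coe, mem_filter] at hm hm'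
      have h2 : m / M = m' / M := by
        simp only at h
        omega
      rw [← Nat.div_add_mod m M, ← Nat.div_add_mod m' M, h2, hm.2.1, hm'.2.1]
  refine (le_trans (by exact_mod_cast hcard) hmain).trans ?_
  have hlKp : 0 < Real.log K := by linarith
  have h2 : (w : ℝ) ^ ε / Real.log K ^ 2 ≤ 4 * ((w : ℝ) ^ ε / Real.log X ^ 2) := by
    calc (w : ℝ) ^ ε / Real.log K ^ 2 ≤ (w : ℝ) ^ ε / (Real.log X / 2) ^ 2 := by
          gcongr
      _ = 4 * ((w : ℝ) ^ ε / Real.log X ^ 2) := by field_simp; ring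
  have hw0 : 0 ≤ (w : ℝ) ^ ε / Real.log K ^ 2 := by positivity
  calc C * (K * ((w : ℝ) ^ ε / Real.log K ^ 2)) ≤ C * ((2 * (X / M)) * (4 * ((w : ℝ) ^ ε / Real.log X ^ 2))) := by
        gcongr
    _ = _ := by ring

end Pool.Agent.Q37.FZ
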